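import Pool.Agent.N180.MO.Spin

/-!
# Extension of scalars
-/

open Finset TensorProduct

namespace Pool.Agent.N180.MO

variable {K V H : Type*} [Field K] [CharZero K] [Algebra K ℂ] [AddCommGroup V] [Module K V]
  [AddCommGroup H] [Module K H] {b : V →ₗ[K] V →ₗ[K] K} {R : V →ₗ[K] V →ₗ[K] Module.End K H}

omit [CharZero K] in
lemma formC_tmul (a a' : ℂ) (x y : V) :
    formC b (a ⊗ₜ x) (a' ⊗ₜ y) = (b x y) • (a * a') := by
  rw [formC, LinearMap.BilinForm.baseChange_tmul]

omit [CharZero K] in
lemma opC_tmul (a a' : ℂ) (x y : V) :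
    opC R (a ⊗ₜ x) (a' ⊗ₜ y) = (a * a') • (R x y).baseChange ℂ := by
  rw [opC, LinearMap.compr₂_apply, LinearMap.BilinMap.baseChange_tmul]
  rfl

omit [CharZero K] in
lemma formC_symm (hs : ∀ x y, b x y = b y x) (x y : ℂ ⊗[K] V) : formC b x y = formC b y x := by
  induction x using TensorProduct.induction_on with
  | zero => simp
  | add x x' hx hx' => rw [map_add, LinearMap.add_apply, map_add, hx, hx']
  | tmul a x =>
    induction y using TensorProduct.induction_on with
    | zero => simp
    | add y y' hy hy' => rw [map_add, map_add, LinearMap.add_apply, hy, hy']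
    | tmul c y => rw [formC_tmul, formC_tmul, hs, mul_comm]

omit [CharZero K] in
lemma opC_skew (h : IsRep b R) (x y : ℂ ⊗[K] V) : opC R x y = -opC R y x := by
  induction x using TensorProduct.induction_on with
  | zero => simp
  | add x x' hx hx' => rw [map_add, LinearMap.add_apply, map_add, hx, hx', neg_add]
  | tmul a x =>
    induction y using TensorProduct.induction_on with
    | zero => simp
    | add y y' hy hy' => rw [map_add, map_add, LinearMap.add_apply, hy, hy', neg_add]
    | tmul c y =>
      rw [opC_tmul, opC_tmul, h.skew, mul_comm, LinearMap.baseChange_neg, smul_neg]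

omit [CharZero K] in
lemma opC_lie (h : IsRep b R) (x y z w : ℂ ⊗[K] V) : opC R x y * opC R z w -
    opC R z w * opC R x y = formC b x z • opC R y w - formC b y z • opC R x w +
      (formC b x w • opC R z y - formC b y w • opC R z x) := by
  induction x using TensorProduct.induction_on with
  | zero => simp
  | add x x' hx hx' =>
    simp only [map_add, LinearMap.add_apply, add_mul, mul_add, add_smul, smul_add]
    linear_combination (norm := module) hx + hx'
  | tmul a x =>
  induction y using TensorProduct.induction_on with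
  | zero => simp
  | add y y' hy hy' =>
    simp only [map_add, LinearMap.add_apply, add_mul, mul_add, add_smul, smul_add]
    linear_combination (norm := module) hy + hy'
  | tmul c y =>
  induction z using TensorProduct.induction_on with
  | zero => simp
  | add z z' hz hz' =>
    simp only [map_add, LinearMap.add_apply, add_mul, mul_add, add_smul, smul_add]
    linear_combination (norm := module) hz + hz'
  | tmul d z =>
  induction w using TensorProduct.induction_on with
  | zero => simp
  | add w w' hw hw' =>
    simp only [map_add, LinearMap.add_apply, add_mul, mul_add, add_smul, smul_add]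
    linear_combination (norm := module) hw + hw'
  | tmul e w =>
    have h1 := h.lie x y z w
    simp only [wedge_apply, map_sub, map_smul, LinearMap.sub_apply, LinearMap.smul_apply] at h1
    have h2 := congrArg (LinearMap.baseChange ℂ) h1
    rw [LinearMap.baseChange_sub, LinearMap.baseChange_mul, LinearMap.baseChange_mul,
      LinearMap.baseChange_add, LinearMap.baseChange_sub, LinearMap.baseChange_sub,
      LinearMap.baseChange_smul, LinearMap.baseChange_smul, LinearMap.baseChange_smul,
      LinearMap.baseChange_smul] at h2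
    simp only [opC_tmul, formC_tmul, smul_mul_smul_comm]
    have h3 : ∀ (r : K) (s s' : ℂ) (T : Module.End ℂ (ℂ ⊗[K] H)),
        (r • s) • (s' • T) = (s * s') • (r • T) := by
      intro r s s' T
      rw [smul_assoc, smul_smul, smul_comm]
    simp only [h3]
    generalize b x z • LinearMap.baseChange ℂ (R y w) = T1 at h2 ⊢
    generalize b y z • LinearMap.baseChange ℂ (R x w) = T2 at h2 ⊢
    generalize b x w • LinearMap.baseChange ℂ (R z y) = T3 at h2 ⊢
    generalize b y w • LinearMap.baseChange ℂ (R z x) = T4 at h2 ⊢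
    linear_combination (norm := module) (a * c * (d * e)) • h2

omit [CharZero K] in
lemma isRepC (h : IsRep b R) : IsRep (formC b) (opC R) where
  alt := by
    intro x
    have h1 := opC_skew h x x
    have h2 : (2 : ℂ) • opC R x x = 0 := by
      rw [two_smul]
      nth_rewrite 1 [h1]
      exact neg_add_cancel _
    exact (smul_eq_zero.1 h2).resolve_left two_ne_zero
  lie := by
    intro x y z w
    rw [opC_lie h, wedge_apply, wedge_apply]
    simp only [map_sub, map_smul, LinearMap.sub_apply, LinearMap.smul_apply]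

omit [CharZero K] in
lemma opC_one (x y : V) : opC R (1 ⊗ₜ x) (1 ⊗ₜ y) = (R x y).baseChange ℂ := by
  rw [opC_tmul, one_mul, one_smul]

omit [CharZero K] in
lemma wedgeC_one (x y : V) : wedge (formC b) (1 ⊗ₜ x) (1 ⊗ₜ y) = (wedge b x y).baseChange ℂ := by
  apply LinearMap.ext
  intro z
  induction z using TensorProduct.induction_on with
  | zero => simp
  | add z z' hz hz' => rw [map_add, map_add, hz, hz']
  | tmul a z =>
    rw [wedge_apply, formC_tmul, formC_tmul, LinearMap.baseChange_tmul, wedge_apply,
      TensorProduct.tmul_sub, TensorProduct.tmul_smul, TensorProduct.tmul_smul, one_mul]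
    simp only [TensorProduct.smul_tmul', smul_assoc, smul_eq_mul, mul_one]

omit [CharZero K] in
lemma IsExp.baseC {a g : Module.End K H} (h : IsExp a g) :
    IsExp (a.baseChange ℂ) (g.baseChange ℂ) := by
  obtain ⟨m, hm, rfl⟩ := h
  refine ⟨m, ?_, ?_⟩
  · rw [← LinearMap.baseChange_pow, hm, LinearMap.baseChange_zero]
  · have h1 := map_sum (LinearMap.baseChangeHom K ℂ H H)
      (fun i => ((i.factorial : K))⁻¹ • a ^ i) (range m)
    simp only [LinearMap.baseChangeHom_apply] at h1
    rw [h1]
    apply Finset.sum_congr rfl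
    intro i _
    rw [LinearMap.baseChange_smul, LinearMap.baseChange_pow]
    have h2 : ((i.factorial : K))⁻¹ • (1 : ℂ) = ((i.factorial : ℂ))⁻¹ := by
      rw [← Algebra.algebraMap_eq_smul_one, map_inv₀, map_natCast]
    rw [← h2, smul_assoc, one_smul]

/-- The extension of scalars takes the group to the group. -/
lemma spinC {p : Module.End K H × Module.End K V} (hp : p ∈ spin b R) :
    (p.1.baseChange ℂ, p.2.baseChange ℂ) ∈ spin (formC b) (opC R) := by
  induction hp using Submonoid.closure_induction with
  | mem p hp =>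
    obtain ⟨l, x, hl, hx, h1, h2⟩ := hp
    refine Submonoid.subset_closure ⟨1 ⊗ₜ l, 1 ⊗ₜ x, ?_, ?_, ?_, ?_⟩
    · rw [formC_tmul, hl, zero_smul]
    · rw [formC_tmul, hx, zero_smul]
    · rw [opC_one]; exact h1.baseC
    · rw [wedgeC_one]; exact h2.baseC
  | one =>
    have h1 : ((1 : Module.End K H × Module.End K V).1.baseChange ℂ,
        (1 : Module.End K H × Module.End K V).2.baseChange ℂ) =
        (1 : Module.End ℂ (ℂ ⊗[K] H) × Module.End ℂ (ℂ ⊗[K] V)) := by
      rw [Prod.fst_one, Prod.snd_one, LinearMap.baseChange_one, LinearMap.baseChange_one]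
      rfl
    rw [h1]
    exact one_mem _
  | mul p q _ _ hp hq =>
    have := mul_mem hp hq
    rwa [Prod.mk_mul_mk, ← LinearMap.baseChange_mul, ← LinearMap.baseChange_mul] at this

/-- Transport of the group by an isomorphism of representations. -/
lemma spin_transport {F V H V' H' : Type*} [Field F] [AddCommGroup V] [Module F V]
    [AddCommGroup H] [Module F H] [AddCommGroup V'] [Module F V'] [AddCommGroup H'] [Module F H']
    {b : V →ₗ[F] V →ₗ[F] F} {R : V →ₗ[F] V →ₗ[F] Module.End F H}
    {b' : V' →ₗ[F] V' →ₗ[F] F} {R' : V' →ₗ[F] V' →ₗ[F] Module.End F H'} {u : H →ₗ[F] H'}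
    {φ : V →ₗ[F] V'} (hu : Function.Surjective u) (hφ : Function.Surjective φ) {c : F}
    (hc : c ≠ 0) (hb : ∀ x y, b' (φ x) (φ y) = c * b x y)
    (hR : ∀ x y, c • (u ∘ₗ R x y) = R' (φ x) (φ y) ∘ₗ u)
    {p : Module.End F H × Module.End F V} (hp : p ∈ spin b R) :
    ∃ p' ∈ spin b' R', u ∘ₗ p.1 = p'.1 ∘ₗ u ∧ φ ∘ₗ p.2 = p'.2 ∘ₗ φ := by
  induction hp using Submonoid.closure_induction with
  | mem p hp =>
    obtain ⟨l, x, hl, hx, h1, h2⟩ := hp
    obtain ⟨g, hg, hg'⟩ := h1.conj (a' := R' (φ l) (c⁻¹ • φ x)) hu (by
      rw [map_smul, LinearMap.smul_comp, ← hR, smul_smul, inv_mul_cancel₀ hc, one_smul])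
    obtain ⟨e, he, he'⟩ := h2.conj (a' := wedge b' (φ l) (c⁻¹ • φ x)) hφ (by
      apply LinearMap.ext
      intro z
      rw [LinearMap.comp_apply, LinearMap.comp_apply, wedge_apply, wedge_apply, map_sub, map_smul,
        map_smul, map_smul, LinearMap.smul_apply, hb, hb, smul_smul, smul_eq_mul, ← mul_assoc,
        inv_mul_cancel₀ hc, one_mul, mul_comm c, mul_assoc, mul_inv_cancel₀ hc, mul_one])
    refine ⟨(g, e), Submonoid.subset_closure ⟨φ l, c⁻¹ • φ x, ?_, ?_, hg, he⟩, hg', he'⟩
    · rw [hb, hl, mul_zero]
    · rw [map_smul, hb, hx, mul_zero, smul_zero]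
  | one => exact ⟨1, one_mem _, rfl, rfl⟩
  | mul p q _ _ hp hq =>
    obtain ⟨p', hp', h1, h2⟩ := hp
    obtain ⟨q', hq', h3, h4⟩ := hq
    refine ⟨p' * q', mul_mem hp' hq', ?_, ?_⟩
    · rw [Prod.fst_mul, Prod.fst_mul, Module.End.mul_eq_comp, Module.End.mul_eq_comp,
        ← LinearMap.comp_assoc, h1, LinearMap.comp_assoc, h3, LinearMap.comp_assoc]
    · rw [Prod.snd_mul, Prod.snd_mul, Module.End.mul_eq_comp, Module.End.mul_eq_comp,
        ← LinearMap.comp_assoc, h2, LinearMap.comp_assoc, h4, LinearMap.comp_assoc]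

end Pool.Agent.N180.MO
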