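import Pool.Agent.N180.MO.Spin

/-!
# Moving isotropic vectors
-/

open Finset

namespace Pool.Agent.N180.MO

variable {F V H : Type*} [Field F] [CharZero F] [AddCommGroup V] [Module F V] [AddCommGroup H]
  [Module F H] {b : V →ₗ[F] V →ₗ[F] F} {R : V →ₗ[F] V →ₗ[F] Module.End F H}
  {A : Subalgebra F (Module.End F H)} {N : Submodule F V} {α β : V}

/-- The vectors `α` and `β` form a hyperbolic pair. -/
structure Hyp (b : V →ₗ[F] V →ₗ[F] F) (α β : V) : Prop where
  symm : ∀ x y, b x y = b y x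
  αα : b α α = 0
  ββ : b β β = 0
  αβ : b α β = -1

omit [CharZero F] in
lemma Hyp.βα (h : Hyp b α β) : b β α = -1 := by rw [h.symm, h.αβ]

/-- The component orthogonal to the hyperbolic pair. -/
lemma Hyp.split (h : Hyp b α β) (v : V) : ∃ v₀, v = v₀ - b β v • α - b α v • β ∧
    b α v₀ = 0 ∧ b β v₀ = 0 ∧ (α ∈ N → β ∈ N → v ∈ N → v₀ ∈ N) := by
  refine ⟨v + b β v • α + b α v • β, by abel, ?_, ?_, ?_⟩
  · rw [map_add, map_add, map_smul, map_smul, h.αα, h.αβ, smul_zero, smul_eq_mul]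
    ring
  · rw [map_add, map_add, map_smul, map_smul, h.ββ, h.βα, smul_zero, smul_eq_mul]
    ring
  · intro h1 h2 h3
    exact Submodule.add_mem _ (Submodule.add_mem _ h3 (Submodule.smul_mem _ _ h1))
      (Submodule.smul_mem _ _ h2)

/-- An isotropic vector not orthogonal to `β` is moved to the line of `α` by a transformation
fixing `β`. -/
lemma Hyp.clear (h : Hyp b α β) {v : V} (hv : b v v = 0) (hβ : b β v ≠ 0) :
    ∃ x, b α x = 0 ∧ b β x = 0 ∧ (α ∈ N → β ∈ N → v ∈ N → x ∈ N) ∧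
      eich b β x v = (-b β v) • α ∧ eich b β x β = β := by
  obtain ⟨v₀, hv₀, h1, h2, h3⟩ := h.split (N := N) v
  set r := -b β v with hr
  have hr0 : r ≠ 0 := neg_ne_zero.2 hβ
  set s := -b α v with hs
  have hv1 : v = v₀ + r • α + s • β := by
    rw [hr, hs, neg_smul, neg_smul, ← sub_eq_add_neg, ← sub_eq_add_neg]
    exact hv₀
  have e1 : b v₀ v = b v₀ v₀ := by
    rw [hv1, map_add, map_add, map_smul, map_smul, h.symm v₀ α, h.symm v₀ β, h1, h2, smul_zero,
      smul_zero, add_zero, add_zero]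
  have e2 : b v₀ v₀ = 2 * r * s := by
    have h4 : b v v = b v₀ v + r * b α v + s * b β v := by
      have h5 := LinearMap.congr_fun (congrArg b hv1) v
      rw [map_add, map_add, map_smul, map_smul] at h5
      simp only [LinearMap.add_apply, LinearMap.smul_apply, smul_eq_mul] at h5
      exact h5
    rw [hv, e1] at h4
    have h6 : b α v = -s := by rw [hs, neg_neg]
    have h7 : b β v = -r := by rw [hr, neg_neg]
    rw [h6, h7] at h4
    linear_combination -h4
  refine ⟨r⁻¹ • v₀, by rw [map_smul, h1, smul_zero], by rw [map_smul, h2, smul_zero],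
    fun h4 h5 h6 => Submodule.smul_mem _ _ (h3 h4 h5 h6), ?_, ?_⟩
  · rw [eich_apply, map_smul, map_smul, LinearMap.smul_apply, LinearMap.smul_apply, e1,
      show b β v = -r by rw [hr, neg_neg], e2]
    conv_lhs => rw [hv1]
    simp only [smul_eq_mul, smul_smul]
    have hc : (-r * r⁻¹ : F) = -1 := by field_simp
    rw [hc]
    have h5 : (2⁻¹ : F) * (r⁻¹ * (r⁻¹ * (2 * r * s))) * -r = -s := by field_simp
    have h6 : (r⁻¹ * (2 * r * s) : F) = 2 * s := by field_simp
    rw [h5, h6]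
    module
  · rw [eich_apply, h.ββ, map_smul, LinearMap.smul_apply, h.symm v₀ β, h2]
    simp

omit [CharZero F] in
lemma Good.smul {v : V} (hv : Good b R A N v) {t : F} (ht : t ≠ 0) : Good b R A N (t • v) := by
  intro x hx hvx
  rw [map_smul, LinearMap.smul_apply, smul_eq_mul] at hvx
  obtain ⟨h1, h2⟩ := hv x hx ((mul_eq_zero.1 hvx).resolve_left ht)
  rw [map_smul, LinearMap.smul_apply]
  exact ⟨Subalgebra.smul_mem _ h1 t, h2.smul t⟩

/-- **Moving an isotropic vector to the line of `β`.** -/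
theorem exists_move_vec (h : IsRep b R) (hb : Hyp b α β) (hα : α ∈ N) (hβ : β ∈ N)
    (hnd : ∀ x ∈ N, (∀ y ∈ N, b x y = 0) → x = 0)
    (hh : ∃ x ∈ N, b α x = 0 ∧ b β x = 0 ∧ b x x ≠ 0) (hg : Good b R A N β) {v : V}
    (hv : v ∈ N) (hv0 : v ≠ 0) (hvv : b v v = 0) (hgv : Good b R A N v) :
    ∃ p ∈ GA b R A N, ∃ t : F, t ≠ 0 ∧ p.2 v = t • β := by
  by_cases h1 : b β v = 0
  · obtain ⟨v₀, hv₀, h2, h3, h4⟩ := hb.split (N := N) v
    have h4 := h4 hα hβ hv
    rw [h1, zero_smul, sub_zero] at hv₀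
    by_cases h5 : v₀ = 0
    · refine ⟨1, one_mem _, -b α v, ?_, ?_⟩
      · intro h6
        apply hv0
        rw [hv₀, h5, neg_eq_zero.1 h6]
        simp
      · rw [Prod.snd_one, Module.End.one_apply, neg_smul]
        conv_lhs => rw [hv₀, h5]
        rw [zero_sub]
    · obtain ⟨y, hy, hvy⟩ : ∃ y ∈ N, b v₀ y ≠ 0 := by
        by_contra hcon
        push Not at hcon
        exact h5 (hnd v₀ h4 hcon)
      obtain ⟨x, hx, hx1, hx2, hx3⟩ := hb.split (N := N) y
      have hx3 := hx3 hα hβ hy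
      have e1 : b v₀ x ≠ 0 := by
        rw [hx, map_sub, map_sub, map_smul, map_smul, hb.symm v₀ α, hb.symm v₀ β, h2, h3] at hvy
        simpa using hvy
      have e2 : b v x = b v₀ x := by
        conv_lhs => rw [hv₀]
        rw [map_sub, map_smul, LinearMap.sub_apply, LinearMap.smul_apply, hx2, smul_zero, sub_zero]
      have e3 : b v x ≠ 0 := by rwa [e2]
      have e4 : b x v ≠ 0 := by rwa [hb.symm]
      have hvβ : b v β = 0 := by rw [hb.symm, h1]
      set y' := (b x v)⁻¹ • (α - (b α v / b x v) • x) with hy'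
      have f1 : b v y' = 0 := by
        rw [hy', map_smul, map_sub, map_smul, hb.symm v α, hb.symm v x, smul_eq_mul, smul_eq_mul,
          div_mul_cancel₀ _ e4, sub_self, mul_zero]
      have f2 : b y' β = -(b x v)⁻¹ := by
        rw [hy', map_smul, map_sub, map_smul, LinearMap.smul_apply, LinearMap.sub_apply,
          LinearMap.smul_apply, hb.αβ, hb.symm x β, hx2]
        simp
      have f3 : y' ∈ N := Submodule.smul_mem _ _
        (Submodule.sub_mem _ hα (Submodule.smul_mem _ _ hx3))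
      obtain ⟨g1, hg1⟩ := IsExp.of_nilpotent (hg x hx3 hx2).2
      obtain ⟨g2, hg2⟩ := IsExp.of_nilpotent (hgv y' f3 f1).2
      refine ⟨(g2, eich b v y') * (g1, eich b β x), mul_mem
        (mem_GA_gen hv f3 hvv f1 (hgv y' f3 f1).1 hg2)
        (mem_GA_gen hβ hx3 hb.ββ hx2 (hg x hx3 hx2).1 hg1), -b x v, neg_ne_zero.2 e4, ?_⟩
      rw [Prod.mk_mul_mk, Module.End.mul_apply]
      have k1 : eich b β x v = v - b x v • β := by
        rw [eich_apply, h1, zero_smul, mul_zero, zero_smul, zero_sub, sub_zero, sub_eq_add_neg]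
      rw [k1, map_sub, map_smul]
      have k2 : eich b v y' v = v := by
        rw [eich_apply, hvv, hb.symm y' v, f1]
        simp
      have k3 : eich b v y' β = β + (b x v)⁻¹ • v := by
        rw [eich_apply, hvβ, f2]
        simp only [zero_smul, mul_zero, sub_zero, zero_sub, neg_smul, neg_neg]
      rw [k2, k3, smul_add, smul_smul, mul_inv_cancel₀ e4, one_smul]
      module
  · obtain ⟨x, hx1, hx2, hx3, hx4, -⟩ := hb.clear (N := N) hvv h1
    have hx3 := hx3 hα hβ hv
    obtain ⟨g1, hg1⟩ := IsExp.of_nilpotent (hg x hx3 hx2).2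
    have m1 := mem_GA_gen (A := A) hβ hx3 hb.ββ hx2 (hg x hx3 hx2).1 hg1
    have hgα : Good b R A N α := by
      have h5 := (hgv.move h hb.symm m1).smul (t := (-b β v)⁻¹) (inv_ne_zero (neg_ne_zero.2 h1))
      change Good b R A N ((-b β v)⁻¹ • (eich b β x v)) at h5
      rwa [hx4, smul_smul, inv_mul_cancel₀ (neg_ne_zero.2 h1), one_smul] at h5
    obtain ⟨y, hy, hy1, hy2, hy3⟩ := hh
    set q := b y y with hq
    have f1 : b α ((-2 / q) • y) = 0 := by rw [map_smul, hy1, smul_zero]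
    have f2 : (-2 / q) • y ∈ N := Submodule.smul_mem _ _ hy
    obtain ⟨g2, hg2⟩ := IsExp.of_nilpotent (hg y hy hy2).2
    obtain ⟨g3, hg3⟩ := IsExp.of_nilpotent (hgα _ f2 f1).2
    refine ⟨(g3, eich b α ((-2 / q) • y)) * ((g2, eich b β y) * (g1, eich b β x)), mul_mem
      (mem_GA_gen hα f2 hb.αα f1 (hgα _ f2 f1).1 hg3)
      (mul_mem (mem_GA_gen hβ hy hb.ββ hy2 (hg y hy hy2).1 hg2) m1), (-b β v) * (q / 2),
      mul_ne_zero (neg_ne_zero.2 h1) (div_ne_zero hy3 two_ne_zero), ?_⟩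
    rw [Prod.mk_mul_mk, Prod.mk_mul_mk, Module.End.mul_apply, Module.End.mul_apply, hx4, map_smul,
      map_smul, mul_smul]
    congr 1
    have k1 : eich b β y α = α - y + (q / 2) • β := by
      rw [eich_apply, hb.βα, hb.symm y α, hy1, ← hq]
      module
    have k2 : eich b α ((-2 / q) • y) α = α := by
      rw [eich_apply, hb.αα, hb.symm _ α, f1]
      simp
    have k3 : eich b α ((-2 / q) • y) y = y + (2 : F) • α := by
      rw [eich_apply, hy1, map_smul, LinearMap.smul_apply, ← hq, smul_eq_mul,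
        div_mul_cancel₀ _ hy3]
      module
    have k4 : eich b α ((-2 / q) • y) β = β + (2 / q) • y + (2 / q) • α := by
      rw [eich_apply, hb.αβ]
      simp only [map_smul, LinearMap.smul_apply, ← hq, hb.symm y β, hy2, smul_eq_mul]
      have h7 : (2⁻¹ : F) * (-2 / q * (-2 / q * q)) * -1 = -(2 / q) := by field_simp
      rw [h7]
      module
    rw [k1, map_add, map_sub, map_smul, k2, k3, k4, smul_add, smul_add, smul_smul, smul_smul]
    have h8 : q / 2 * (2 / q) = 1 := by field_simp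
    rw [h8]
    module

/-- **Moving a hyperbolic pair.** -/
theorem exists_move (h : IsRep b R) (hb : Hyp b α β) (hα : α ∈ N) (hβ : β ∈ N)
    (hnd : ∀ x ∈ N, (∀ y ∈ N, b x y = 0) → x = 0)
    (hh : ∃ x ∈ N, b α x = 0 ∧ b β x = 0 ∧ b x x ≠ 0) (hg : Good b R A N β) {v w : V}
    (hv : v ∈ N) (hw : w ∈ N) (hvv : b v v = 0) (hww : b w w = 0) {c : F} (hc : c ≠ 0)
    (hwv : b w v = -c) (hgv : Good b R A N v) :
    ∃ p ∈ GA b R A N, ∃ r t : F, r * t = c ∧ p.2 w = r • α ∧ p.2 v = t • β := by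
  have hv0 : v ≠ 0 := by
    rintro rfl
    rw [map_zero] at hwv
    exact hc (neg_eq_zero.1 hwv.symm)
  obtain ⟨p, hp, t, ht, hpt⟩ := exists_move_vec h hb hα hβ hnd hh hg hv hv0 hvv hgv
  have hs := GA_spin hb.symm hp
  have e1 : b (p.2 w) (p.2 v) = -c := by rw [spin_isom hb.symm hs, hwv]
  have e2 : b (p.2 w) (p.2 w) = 0 := by rw [spin_isom hb.symm hs, hww]
  rw [hpt, map_smul, hb.symm, smul_eq_mul] at e1
  have e3 : b β (p.2 w) ≠ 0 := by
    intro h0
    rw [h0, mul_zero] at e1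
    exact hc (neg_eq_zero.1 e1.symm)
  obtain ⟨x, hx1, hx2, hx3, hx4, hx5⟩ := hb.clear (N := N) e2 e3
  have hx3 := hx3 hα hβ (GA_N hp w hw)
  obtain ⟨g1, hg1⟩ := IsExp.of_nilpotent (hg x hx3 hx2).2
  refine ⟨(g1, eich b β x) * p, mul_mem
    (mem_GA_gen (A := A) hβ hx3 hb.ββ hx2 (hg x hx3 hx2).1 hg1) hp, -b β (p.2 w), t, ?_, ?_, ?_⟩
  · linear_combination -e1
  · rw [Prod.snd_mul, Module.End.mul_apply, hx4]
  · rw [Prod.snd_mul, Module.End.mul_apply, hpt, map_smul, hx5]

end Pool.Agent.N180.MO
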