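import Pool.Agent.N180.MO.BC
import Pool.Agent.N180.MO.Move

/-!
# The multiplicativity
-/

open Finset

namespace Pool.Agent.N180.MO

variable {F V B V' B' : Type*} [Field F] [CharZero F] [AddCommGroup V] [Module F V]
  [AddCommGroup V'] [Module F V'] [Ring B] [Algebra F B] [Ring B'] [Algebra F B']

omit [CharZero F] in
lemma IsExp.comm_mul {a g : Module.End F B} (h : IsExp a g) {x : B}
    (hx : ∀ y, a (x * y) = x * a y) (y : B) : g (x * y) = x * g y := by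
  obtain ⟨m, -, rfl⟩ := h
  have key : ∀ i : ℕ, ∀ y, (a ^ i) (x * y) = x * (a ^ i) y := by
    intro i
    induction i with
    | zero => intro y; simp
    | succ i ih =>
      intro y
      rw [pow_succ, Module.End.mul_apply, Module.End.mul_apply, hx, ih]
  simp only [LinearMap.sum_apply, LinearMap.smul_apply, key, Finset.mul_sum, mul_smul_comm]

/-- **The multiplicativity.** -/
theorem core {b : V →ₗ[F] V →ₗ[F] F} {R : V →ₗ[F] V →ₗ[F] Module.End F B}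
    {b' : V' →ₗ[F] V' →ₗ[F] F} {R' : V' →ₗ[F] V' →ₗ[F] Module.End F B'} {β : V} {α' β' : V'}
    (h' : IsRep b' R') (hb' : Hyp b' α' β')
    (cent : ∀ x, b' α' x = 0 → b' β' x = 0 → IsNilpotent (R' β' x) ∧
      ∀ z y : B', R' β' x (z * y) = z * R' β' x y)
    (auto : ∀ g ∈ spin b' R', g.1 * R' β' α' = R' β' α' * g.1 →
      ∃ c : F, c ≠ 0 ∧ ∀ x y, c • g.1 (x * y) = g.1 x * g.1 y)
    {ω : V} {ω' : V'} {ht : Set (Module.End F B)} {ht' : Set (Module.End F B')}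
    {w : Module.End F B × Module.End F V} (hw : w ∈ spin b R) {a : F} (ha : a ≠ 0)
    (hwβ : w.2 β = a • ω) (hwc : Conjugates w.1 (cupOps F B) ht)
    {w' : Module.End F B' × Module.End F V'} (hw' : w' ∈ spin b' R') {a' : F} (ha' : a' ≠ 0)
    (hwβ' : w'.2 β' = a' • ω') (hwc' : Conjugates w'.1 (cupOps F B') ht')
    {u : B →ₗ[F] B'} {φ : V →ₗ[F] V'} (hu : Function.Surjective u)
    (hφ : Function.Surjective φ) {c : F} (hc : c ≠ 0) (hb : ∀ x y, b' (φ x) (φ y) = c * b x y)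
    (hR : ∀ x y, c • (u ∘ₗ R x y) = R' (φ x) (φ y) ∘ₗ u) {t : F} (ht0 : t ≠ 0)
    (hω : φ ω = t • ω') (hht : Conjugates u ht ht')
    {p : Module.End F B' × Module.End F V'} (hp : p ∈ spin b' R') {r : F} (hr : r ≠ 0)
    (hpβ : p.2 (φ β) = r • β') (x : B) :
    ∃ z : B', ∀ y, p.1 (u (x * y)) = z * p.1 (u y) := by
  obtain ⟨w₂, hw₂, h1, h2⟩ := spin_transport hu hφ hc hb hR hw
  obtain ⟨wi, hwi, h3, h4⟩ := spin_inv hb'.symm hw'
  obtain ⟨pi, hpi, h5, h6⟩ := spin_inv hb'.symm hp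
  have h3a : ∀ z, w'.1 (wi.1 z) = z := fun z => LinearMap.congr_fun (congrArg Prod.fst h3) z
  have h4a : ∀ z, wi.1 (w'.1 z) = z := fun z => LinearMap.congr_fun (congrArg Prod.fst h4) z
  have h4b : ∀ z, wi.2 (w'.2 z) = z := fun z => LinearMap.congr_fun (congrArg Prod.snd h4) z
  have h6a : ∀ z, pi.1 (p.1 z) = z := fun z => LinearMap.congr_fun (congrArg Prod.fst h6) z
  have h6b : ∀ z, pi.2 (p.2 z) = z := fun z => LinearMap.congr_fun (congrArg Prod.snd h6) z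
  have h1a : ∀ z, u (w.1 z) = w₂.1 (u z) := fun z => LinearMap.congr_fun h1 z
  have h2a : ∀ z, φ (w.2 z) = w₂.2 (φ z) := fun z => LinearMap.congr_fun h2 z
  set k := wi * w₂ * pi with hk
  have hks : k ∈ spin b' R' := mul_mem (mul_mem hwi hw₂) hpi
  have hk1 : ∀ y, k.1 (p.1 (u y)) = wi.1 (u (w.1 y)) := by
    intro y
    rw [hk, Prod.fst_mul, Prod.fst_mul, Module.End.mul_apply, Module.End.mul_apply, h6a, h1a]
  have hkβ : ∃ m : F, m ≠ 0 ∧ k.2 β' = m • β' := by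
    refine ⟨r⁻¹ * a * t * a'⁻¹, by positivity, ?_⟩
    have e1 : β' = r⁻¹ • p.2 (φ β) := by rw [hpβ, smul_smul, inv_mul_cancel₀ hr, one_smul]
    have e2 : ω' = a'⁻¹ • w'.2 β' := by rw [hwβ', smul_smul, inv_mul_cancel₀ ha', one_smul]
    have e3 : k.2 (p.2 (φ β)) = wi.2 (φ (w.2 β)) := by
      rw [hk, Prod.snd_mul, Prod.snd_mul, Module.End.mul_apply, Module.End.mul_apply, h6b, h2a]
    have e4 : wi.2 ω' = a'⁻¹ • β' := by rw [e2, map_smul, h4b]
    calc k.2 β' = r⁻¹ • k.2 (p.2 (φ β)) := by rw [← map_smul, ← e1]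
      _ = (r⁻¹ * a * t * a'⁻¹) • β' := by
        rw [e3, hwβ, map_smul, hω, map_smul, map_smul, e4]
        simp only [smul_smul]
        congr 1
        ring
  obtain ⟨m, hm, hkβ⟩ := hkβ
  have iso := fun y z => spin_isom hb'.symm hks y z
  have hv1 : b' (k.2 α') (k.2 α') = 0 := by rw [iso, hb'.αα]
  have hv2 : m * b' β' (k.2 α') = -1 := by
    have := iso β' α'
    rw [hkβ, map_smul, LinearMap.smul_apply, smul_eq_mul, hb'.βα] at this
    exact this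
  have hv3 : b' β' (k.2 α') ≠ 0 := by
    intro h0
    rw [h0, mul_zero] at hv2
    exact one_ne_zero (neg_eq_zero.1 hv2.symm)
  obtain ⟨x₀, hx1, hx2, -, hx4, hx5⟩ := hb'.clear (N := ⊤) hv1 hv3
  obtain ⟨hx6, hx7⟩ := cent x₀ hx1 hx2
  obtain ⟨g, hg⟩ := IsExp.of_nilpotent hx6
  have hgs := mem_spin_gen (R := R') hb'.symm hb'.ββ hx2 hg
  set k' := (g, eich b' β' x₀) * k with hk'
  have hks' : k' ∈ spin b' R' := mul_mem hgs hks
  have hk'1 : ∀ z, k'.1 z = g (k.1 z) := fun z => rfl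
  have hk'β : k'.2 β' = m • β' := by
    rw [hk', Prod.snd_mul, Module.End.mul_apply, hkβ, map_smul, hx5]
  have hk'α : k'.2 α' = (-b' β' (k.2 α')) • α' := by
    rw [hk', Prod.snd_mul, Module.End.mul_apply, hx4]
  obtain ⟨c₀, hc₀, hmul⟩ := auto k' hks' (by
    rw [spin_act h' hb'.symm hks', hk'β, hk'α, map_smul, map_smul, LinearMap.smul_apply,
      smul_smul]
    have : -b' β' (k.2 α') * m = 1 := by linear_combination -hv2
    rw [this, one_smul])
  obtain ⟨ki, hki, h7, h8⟩ := spin_inv hb'.symm hks'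
  have h7a : ∀ z, k'.1 (ki.1 z) = z := fun z => LinearMap.congr_fun (congrArg Prod.fst h7) z
  have h8a : ∀ z, ki.1 (k'.1 z) = z := fun z => LinearMap.congr_fun (congrArg Prod.fst h8) z
  obtain ⟨a₁, ha₁, h9⟩ := hwc.1 _ ⟨x, rfl⟩
  obtain ⟨a₂, ha₂, h10⟩ := hht.1 _ ha₁
  obtain ⟨_, ⟨x', rfl⟩, h11⟩ := hwc'.2 _ ha₂
  have h9a : ∀ y, w.1 (x * y) = a₁ (w.1 y) := fun y => LinearMap.congr_fun h9 y
  have h10a : ∀ y, u (a₁ y) = a₂ (u y) := fun y => LinearMap.congr_fun h10 y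
  have h11a : ∀ y, w'.1 (x' * y) = a₂ (w'.1 y) := fun y => LinearMap.congr_fun h11 y
  have h12 : ∀ y, k.1 (p.1 (u (x * y))) = x' * k.1 (p.1 (u y)) := by
    intro y
    rw [hk1, hk1, h9a, h10a]
    have : a₂ (u (w.1 y)) = w'.1 (x' * wi.1 (u (w.1 y))) := by rw [h11a, h3a]
    rw [this, h4a]
  refine ⟨c₀ • ki.1 x', fun y => ?_⟩
  have h13 : k'.1 (p.1 (u (x * y))) = k'.1 ((c₀ • ki.1 x') * p.1 (u y)) := by
    rw [smul_mul_assoc, map_smul, hmul, h7a, hk'1, hk'1, h12, hg.comm_mul (fun y => hx7 x' y)]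
  rw [← h8a (p.1 (u (x * y))), h13, h8a]

end Pool.Agent.N180.MO
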