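import Mathlib

/-!
# The multiplicative Orlov conjecture for homological motives: definitions
-/

open TensorProduct

namespace Pool.Agent.N180.MO

section Rep

variable {F V H : Type*} [Field F] [AddCommGroup V] [Module F V] [AddCommGroup H] [Module F H]

/-- The endomorphism `x ∧ y` of the quadratic space `(V, b)`: it takes `z` to
`b(x,z) y - b(y,z) x`. -/
def wedge (b : V →ₗ[F] V →ₗ[F] F) (x y : V) : Module.End F V :=
  (b x).smulRight y - (b y).smulRight x

/-- `R` is a representation on `H` of the Lie algebra `so(V, b)` spanned by the endomorphisms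
`x ∧ y`; here `R x y` is the operator by which `x ∧ y` acts. -/
structure IsRep (b : V →ₗ[F] V →ₗ[F] F) (R : V →ₗ[F] V →ₗ[F] Module.End F H) : Prop where
  alt : ∀ x, R x x = 0
  lie : ∀ x y z w, R x y * R z w - R z w * R x y =
    R (wedge b x y z) w + R z (wedge b x y w)

/-- The operator `a` is nilpotent and `g` is its exponential. -/
def IsExp (a g : Module.End F H) : Prop :=
  ∃ m, a ^ m = 0 ∧ g = ∑ i ∈ Finset.range m, ((i.factorial : F))⁻¹ • a ^ i

/-- The group generated by the pairs `(exp (R l x), exp (l ∧ x))` where `l` is isotropic and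
orthogonal to `x` (the image of the spin group of `V` in `GL(H) × GL(V)`). -/
def spin (b : V →ₗ[F] V →ₗ[F] F) (R : V →ₗ[F] V →ₗ[F] Module.End F H) :
    Submonoid (Module.End F H × Module.End F V) :=
  Submonoid.closure {g | ∃ l x, b l l = 0 ∧ b l x = 0 ∧ IsExp (R l x) g.1 ∧
    IsExp (wedge b l x) g.2}

/-- The operator `u` conjugates the elements of `S` to the elements of `S'`. -/
def Conjugates {H' : Type*} [AddCommGroup H'] [Module F H'] (u : H →ₗ[F] H')
    (S : Set (Module.End F H)) (S' : Set (Module.End F H')) : Prop :=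
  (∀ a ∈ S, ∃ a' ∈ S', u ∘ₗ a = a' ∘ₗ u) ∧ ∀ a' ∈ S', ∃ a ∈ S, u ∘ₗ a = a' ∘ₗ u

end Rep

section Alg

/-- The operators `y ↦ x y` on the algebra `B`. -/
def cupOps (F B : Type*) [Field F] [Ring B] [Algebra F B] : Set (Module.End F B) :=
  Set.range fun x => LinearMap.mulLeft F x

end Alg

section Complex

variable {K V H : Type*} [Field K] [Algebra K ℂ] [AddCommGroup V] [Module K V] [AddCommGroup H]
  [Module K H]

/-- The extension to `ℂ ⊗ V` of a bilinear form on `V`. -/
noncomputable def formC (b : V →ₗ[K] V →ₗ[K] K) : ℂ ⊗[K] V →ₗ[ℂ] ℂ ⊗[K] V →ₗ[ℂ] ℂ :=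
  LinearMap.BilinForm.baseChange ℂ b

/-- The extension to `ℂ ⊗ V` of a bilinear map from `V` to the operators on `H`: its values are
operators on `ℂ ⊗ H`. -/
noncomputable def opC (R : V →ₗ[K] V →ₗ[K] Module.End K H) :
    ℂ ⊗[K] V →ₗ[ℂ] ℂ ⊗[K] V →ₗ[ℂ] Module.End ℂ (ℂ ⊗[K] H) :=
  (LinearMap.BilinMap.baseChange ℂ R).compr₂ (LinearMap.tensorProduct K ℂ H H)

end Complex

end Pool.Agent.N180.MO
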