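import Pool.Agent.N180.MO.Core
import Pool.Agent.N190.JM.Bridge

/-!
# Hyperkähler varieties: preparations
-/

open CategoryTheory AlgebraicGeometry Finset TensorProduct

universe u v

namespace Pool.Agent.N180.MO

section Mukai

variable {K V M : Type*} [Field K] [AddCommGroup V] [Module K V] [AddCommGroup M] [Module K M]
  [Algebra K ℂ] {b : V →ₗ[K] V →ₗ[K] K} {α β : V}

lemma hypC (h : Hyp b α β) : Hyp (formC b) (1 ⊗ₜ α) (1 ⊗ₜ β) where
  symm := formC_symm h.symm
  αα := by rw [formC_tmul, h.αα, zero_smul]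
  ββ := by rw [formC_tmul, h.ββ, zero_smul]
  αβ := by rw [formC_tmul, h.αβ, neg_smul, one_smul, mul_one]

/-- The vectors orthogonal to `α` and `β` in the complexification. -/
lemma exists_inM {i : M →ₗ[K] V} {p : V →ₗ[K] M}
    (hip : ∀ x, i (p x) = x + b β x • α + b α x • β) {x : ℂ ⊗[K] V}
    (h1 : formC b (1 ⊗ₜ α) x = 0) (h2 : formC b (1 ⊗ₜ β) x = 0) :
    x = i.baseChange ℂ (p.baseChange ℂ x) := by
  have key : ∀ x : ℂ ⊗[K] V, i.baseChange ℂ (p.baseChange ℂ x) =
      x + formC b (1 ⊗ₜ β) x • (1 ⊗ₜ α) + formC b (1 ⊗ₜ α) x • (1 ⊗ₜ β) := by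
    intro x
    induction x using TensorProduct.induction_on with
    | zero => simp
    | add x y hx hy =>
      rw [map_add, map_add, hx, hy]
      simp only [map_add, add_smul]
      abel
    | tmul a x =>
      have hh : ∀ (r : K) (v : V), (r • a) • ((1 : ℂ) ⊗ₜ[K] v) = a ⊗ₜ[K] (r • v) := by
        intro r v
        rw [TensorProduct.smul_tmul', smul_eq_mul, mul_one, TensorProduct.smul_tmul]
      rw [LinearMap.baseChange_tmul, LinearMap.baseChange_tmul, formC_tmul, formC_tmul, one_mul,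
        hh, hh, ← TensorProduct.tmul_add, ← TensorProduct.tmul_add, hip]
  rw [key, h1, h2, zero_smul, zero_smul, add_zero, add_zero]

end Mukai

open Pool.Agent.H914 Pool.Agent.N190.Opp VarClass Obj WeilCohomology

variable {k : Type u} [Field k] {𝒱 : VarClass k} {ops : CycleOps 𝒱}
  {W : WeilCohomology.{u, v} ops} {X Y : 𝒱.Obj}

lemma even_central {x : W.H X} (hx : x ∈ W.gr X 2) (y : W.H X) : x * y = y * x := by
  refine gr_induction (W.isInternal X) (p := fun y => x * y = y * x) ?_ ?_ y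
  · intro i y hy
    rw [W.comm hx hy, pow_mul, neg_one_sq, one_pow, one_smul]
  · intro a b ha hb
    rw [mul_add, add_mul, ha, hb]

lemma pow_mem_gr {x : W.H X} (hx : x ∈ W.gr X 2) (m : ℕ) : x ^ m ∈ W.gr X (2 * m) := by
  induction m with
  | zero => rw [pow_zero]; exact W.one_mem X
  | succ m ih =>
    rw [pow_succ, show 2 * (m + 1) = 2 * m + 2 by ring]
    exact W.mul_mem ih hx

lemma even_nilpotent {x : W.H X} (hx : x ∈ W.gr X 2) : IsNilpotent x := by
  refine ⟨X.dim + 1, ?_⟩
  have := pow_mem_gr hx (X.dim + 1)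
  rw [W.gr_eq_bot X _ (by omega)] at this
  exact (Submodule.mem_bot _).1 this

lemma mulLeft_nilpotent {F B : Type*} [Field F] [Ring B] [Algebra F B] {x : B}
    (hx : IsNilpotent x) : IsNilpotent (LinearMap.mulLeft F x) := by
  obtain ⟨m, hm⟩ := hx
  exact ⟨m, by rw [LinearMap.pow_mulLeft, hm, LinearMap.mulLeft_zero_eq_zero]⟩

/-- The subalgebra of algebraic operators. -/
def mixAlg (W : WeilCohomology.{u, v} ops) (X : 𝒱.Obj) :
    Subalgebra W.K (Module.End W.K (W.H X)) where
  carrier := KMix W X X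
  mul_mem' := fun ha hb => KMix.mul ha hb
  add_mem' := fun ha hb => Submodule.add_mem _ ha hb
  algebraMap_mem' := fun r => by
    rw [Algebra.algebraMap_eq_smul_one]
    exact Submodule.smul_mem _ _ KMix.one

lemma mem_mixAlg {a : Module.End W.K (W.H X)} : a ∈ mixAlg W X ↔ a ∈ KMix W X X := Iff.rfl

/-- Multiplication by a divisor class is algebraic. -/
lemma mulLeft_mix {x : W.H X} (hx : x ∈ spanCycles W X 1) :
    LinearMap.mulLeft W.K x ∈ KMix W X X := by
  induction hx using Submodule.span_induction with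
  | mem x hx =>
    obtain ⟨p, hp, z, hz, rfl⟩ := hx
    obtain rfl : p = 1 := by exact_mod_cast hp
    exact KOp.mix (Pool.Agent.W534.kop_L hz)
  | zero => rw [LinearMap.mulLeft_zero_eq_zero]; exact Submodule.zero_mem _
  | add x y _ _ hx hy =>
    have : LinearMap.mulLeft W.K (x + y) = LinearMap.mulLeft W.K x + LinearMap.mulLeft W.K y := by
      apply LinearMap.ext; intro z; simp [add_mul]
    rw [this]
    exact Submodule.add_mem _ hx hy
  | smul a x _ hx =>
    have : LinearMap.mulLeft W.K (a • x) = a • LinearMap.mulLeft W.K x := by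
      apply LinearMap.ext; intro z; simp
    rw [this]
    exact Submodule.smul_mem _ _ hx

/-- With rational coefficients an algebraic operator of degree zero is given by one cycle. -/
lemma exists_cycle (hK : ∀ r : W.K, ∃ s : ℚ, (s : W.K) = r) {s : W.H X →ₗ[W.K] W.H Y}
    (hs : s ∈ KOp W X Y 0) : ∃ z, (X.prod Y).IsCyc X.dim z ∧ W.corr (W.cl _ z) = s := by
  rw [KOp] at hs
  induction hs using Submodule.span_induction with
  | mem s hs =>
    obtain ⟨p, hp, z, hz, hzs⟩ := hs
    obtain rfl : p = X.dim := by omega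
    exact ⟨z, hz, hzs⟩
  | zero => exact ⟨0, SmVar.IsCyc.zero _ _, by rw [map_zero, corr_zero]⟩
  | add s t _ _ hs ht =>
    obtain ⟨z, hz, rfl⟩ := hs
    obtain ⟨w, hw, rfl⟩ := ht
    exact ⟨z + w, hz.add hw, by rw [map_add, corr_add]⟩
  | smul r s _ hs =>
    obtain ⟨z, hz, rfl⟩ := hs
    obtain ⟨q, rfl⟩ := hK r
    exact ⟨q • z, hz.smul _, by rw [cl_smul, corr_smul]⟩

end Pool.Agent.N180.MO
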