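import Pool.Agent.H914R2.CorrDefs

/-!
# The multiplicative Orlov conjecture for homological motives: statements
-/

open CategoryTheory AlgebraicGeometry TensorProduct

universe u v

namespace Pool.Agent.N180.MOS

section Rep

variable (F V H : Type*) [Field F] [AddCommGroup V] [Module F V] [AddCommGroup H] [Module F H]

/-- The bilinear forms on `V`. -/
def Form : Type _ := V →ₗ[F] V →ₗ[F] F

/-- The bilinear maps from `V` to the linear operators on `H`. -/
def Act : Type _ := V →ₗ[F] V →ₗ[F] Module.End F H

variable {F V H}

/-- The bilinear form `b` as a bilinear map. -/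
def Form.lin (b : Form F V) : V →ₗ[F] V →ₗ[F] F := b

/-- The values of a bilinear form. -/
def Form.at (b : Form F V) (x y : V) : F := b.lin x y

/-- The underlying bilinear map. -/
def Act.lin (R : Act F V H) : V →ₗ[F] V →ₗ[F] Module.End F H := R

/-- The values of a bilinear map. -/
def Act.at (R : Act F V H) (x y : V) : Module.End F H := R.lin x y

/-- The endomorphism `x ∧ y` of the quadratic space `(V, b)`: it takes `z` to
`b(x,z) y - b(y,z) x`. -/
def wedge (b : Form F V) (x y z : V) : V := b.at x z • y - b.at y z • x

/-- For isotropic `l` orthogonal to `x`, the exponential of `l ∧ x`. -/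
def expWedge (b : Form F V) (l x z : V) : V :=
  z + wedge b l x z - (2⁻¹ * b.at x x * b.at l z) • l

/-- The form `b` is symmetric, and `R` is a representation on `H` of the Lie algebra `so(V, b)`
spanned by the endomorphisms `x ∧ y`; here `R x y` is the operator by which `x ∧ y` acts. -/
structure IsRep (b : Form F V) (R : Act F V H) : Prop where
  symm : ∀ x y, b.at x y = b.at y x
  alt : ∀ x, R.at x x = 0
  lie : ∀ x y z w, R.at x y * R.at z w - R.at z w * R.at x y =
    R.at (wedge b x y z) w + R.at z (wedge b x y w)

/-- The operator `a` is nilpotent and `g` is its exponential. -/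
def IsExp (a g : Module.End F H) : Prop :=
  ∃ m, a ^ m = 0 ∧ g = ∑ i ∈ Finset.range m, ((i.factorial : F))⁻¹ • a ^ i

/-- The pair `(g, e)` of transformations of `H` and `V` is in the group generated by the pairs
`(exp (R l x), exp (l ∧ x))` with `l` isotropic and orthogonal to `x` (the image of the spin group
of `V`). -/
inductive Spin (b : Form F V) (R : Act F V H) : Module.End F H → (V → V) → Prop
  | one : Spin b R 1 id
  | mul (l x : V) (g' g : Module.End F H) (e : V → V) : b.at l l = 0 → b.at l x = 0 →
    IsExp (R.at l x) g' → Spin b R g e → Spin b R (g' * g) (fun z => expWedge b l x (e z))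

/-- The operator `u` conjugates the elements of `S` to the elements of `S'`. -/
def Conjugates {H' : Type*} [AddCommGroup H'] [Module F H'] (u : H →ₗ[F] H')
    (S : Set (Module.End F H)) (S' : Set (Module.End F H')) : Prop :=
  (∀ a ∈ S, ∃ a' ∈ S', u ∘ₗ a = a' ∘ₗ u) ∧ ∀ a' ∈ S', ∃ a ∈ S, u ∘ₗ a = a' ∘ₗ u

/-- The operators `y ↦ x y` on the algebra `B`. -/
def cupOps (F B : Type*) [Field F] [Ring B] [Algebra F B] : Set (Module.End F B) :=
  Set.range fun x => LinearMap.mulLeft F x

/-- The operator `g` is a non-zero multiple of a ring homomorphism. -/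
def IsScaledHom {F B : Type*} [Field F] [Ring B] [Algebra F B] (g : Module.End F B) : Prop :=
  ∃ c : F, c ≠ 0 ∧ ∀ x y, c • g (x * y) = g x * g y

/-- The maps `s` and `s'` are mutually inverse. -/
def MutuallyInverse {A B : Type*} (s : A → B) (s' : B → A) : Prop :=
  (∀ x, s' (s x) = x) ∧ ∀ y, s (s' y) = y

end Rep

section Complex

variable {K V H : Type*} [Field K] [Algebra K ℂ] [AddCommGroup V] [Module K V] [AddCommGroup H]
  [Module K H]

/-- The extension to `ℂ ⊗ V` of a bilinear form on `V`. -/
noncomputable def Form.cx (b : Form K V) : Form ℂ (ℂ ⊗[K] V) :=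
  LinearMap.BilinForm.baseChange ℂ b.lin

/-- The extension to `ℂ ⊗ V` of a bilinear map from `V` to the operators on `H`: its values are
operators on `ℂ ⊗ H`. -/
noncomputable def Act.cx (R : Act K V H) : Act ℂ (ℂ ⊗[K] V) (ℂ ⊗[K] H) :=
  (LinearMap.BilinMap.baseChange ℂ R.lin).compr₂ (LinearMap.tensorProduct K ℂ H H)

end Complex

section Data

variable {K A B : Type v} [Field K] [Ring A] [Algebra K A] [Ring B] [Algebra K B]

/-- The extended Mukai space `K ⊕ H^2 ⊕ K`, where `H^2` is the piece of degree `2` of the algebra
with graded pieces `G i`. -/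
abbrev Mk (G : ℕ → Submodule K A) : Type v := K × G 2 × K

/-- The vector `(1, 0, 0)` of the extended Mukai space. -/
def vecα (G : ℕ → Submodule K A) : Mk G := (1, 0, 0)

/-- The vector `(0, 0, 1)` of the extended Mukai space. -/
def vecβ (G : ℕ → Submodule K A) : Mk G := (0, 0, 1)

/-- The vector `(r, x, s)` is in the algebraic part `K ⊕ NS ⊕ K` of the extended Mukai space. -/
def IsAlg {G : ℕ → Submodule K A} (N : Submodule K A) (x : Mk G) : Prop := (x.2.1 : A) ∈ N

/-- What is used about a hyperkähler variety `X` of dimension `n`, with cohomology algebra `A`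
(with coefficients in a field `K` contained in `ℂ`, for example `K = ℚ`) with graded pieces `G i`,
and with space `N` spanned by the classes of divisors. All these are theorems:
* `q` is the Beauville-Bogomolov form on `H^2(X)`, not degenerate on the space of divisor classes,
  some divisor class has non-zero square; `b` is its extension to the extended Mukai space: the
  product of `(r, x, s)` and `(r', x', s')` is `q(x,x') - r s' - s r'`;
* `R` is the action on `H(X)` of the Looijenga-Lunts-Verbitsky Lie algebra, which is the Lie algebra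
  `so` of the extended Mukai space: `R x y` is the action of `x ∧ y`, the element `x ∧ β` acts as
  cup product with `x` in `H^2(X)`, and twice `β ∧ α` acts as `i - dim X` on `H^i(X)`;
* `HT` is the set of the operators on `H(X, ℂ)` given by contraction with the elements of
  `H^*(X, Λ^* T)` and `ω` spans `H^(0,2)(X)`. By Verbitsky an element `g` of the group generated by
  the exponentials (the image of the complex spin group) conjugates the cup products into the
  contractions, and moves `β` to the line of `ω`;
* an element of this group which commutes with the degree operator is up to a scalar an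
  automorphism of the ring `H(X, ℂ)` (it is in the connected subgroup with Lie algebra
  `ℂ ⊕ so(H^2)`, and `so(H^2)` acts by derivations, by Looijenga-Lunts and Verbitsky). -/
structure HKData [Algebra K ℂ] (G : ℕ → Submodule K A) (N : Submodule K A) (n : ℕ) where
  /-- the Beauville-Bogomolov form -/
  q : Form K (G 2)
  /-- its extension to the extended Mukai space -/
  b : Form K (Mk G)
  /-- the action of the Looijenga-Lunts-Verbitsky Lie algebra -/
  R : Act K (Mk G) A
  /-- the line `H^(0,2)(X)` -/
  ω : ℂ ⊗[K] Mk G
  /-- the contractions -/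
  HT : Set (Module.End ℂ (ℂ ⊗[K] A))
  nondeg : ∀ x : G 2, (x : A) ∈ N → (∀ y : G 2, (y : A) ∈ N → q.at x y = 0) → x = 0
  ample : ∃ x : G 2, (x : A) ∈ N ∧ q.at x x ≠ 0
  mukai : ∀ r x s r' x' s', b.at (r, x, s) (r', x', s') = q.at x x' - r * s' - s * r'
  rep : IsRep b R
  cup : ∀ (x : G 2) (y : A), R.at (0, x, 0) (vecβ G) y = x * y
  deg : ∀ i, ∀ y ∈ G i, (2 : K) • R.at (vecβ G) (vecα G) y = ((i : K) - n) • y
  verbitsky : ∃ g e, Spin b.cx R.cx g e ∧ (∃ a : ℂ, a ≠ 0 ∧ e (1 ⊗ₜ vecβ G) = a • ω) ∧
    Conjugates g (cupOps ℂ (ℂ ⊗[K] A)) HT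
  automorphism : ∀ g e, Spin b.cx R.cx g e →
    Commute g (R.cx.at (1 ⊗ₜ vecβ G) (1 ⊗ₜ vecα G)) → IsScaledHom g

/-- What is used about an equivalence of the derived categories of two hyperkähler varieties `X`
and `Y` with cohomology `A` and `B`, where `alg` and `alg'` say that a linear map `A → B` or
`B → A` is induced by algebraic cycles. All these are theorems:
* the Mukai vectors of the kernels of the equivalence and of its inverse are algebraic classes, and
  give mutually inverse operators `u` and `v` (Mukai, Orlov);
* there is a similitude `φ` of the extended Mukai spaces, of factor `c`, such that `u` conjugates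
  the action of `x ∧ y` to `c⁻¹` times the action of `φ(x) ∧ φ(y)`, and `φ` is compatible with the
  Hodge structures, so that it exchanges the algebraic parts and the lines `H^(0,2)` (Taelman);
* `u` conjugates contractions to contractions (Calaque, Rossi and Van den Bergh). -/
structure DEData [Algebra K ℂ] {G : ℕ → Submodule K A} {N : Submodule K A} {n : ℕ}
    {G' : ℕ → Submodule K B} {N' : Submodule K B} {n' : ℕ} (hX : HKData G N n)
    (hY : HKData G' N' n') (alg : (A →ₗ[K] B) → Prop) (alg' : (B →ₗ[K] A) → Prop) where
  /-- the operator of the Mukai vector of the kernel -/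
  u : A →ₗ[K] B
  /-- the operator of the Mukai vector of the kernel of the inverse -/
  v : B →ₗ[K] A
  /-- the similitude of the extended Mukai spaces -/
  φ : Mk G →ₗ[K] Mk G'
  /-- the factor of the similitude -/
  c : K
  dim_eq : n = n'
  algebraic : alg u
  algebraic' : alg' v
  inverse : MutuallyInverse u v
  surjective : Function.Surjective φ
  c_ne : c ≠ 0
  similitude : ∀ x y, hY.b.at (φ x) (φ y) = c * hX.b.at x y
  comm : ∀ x y z, c • u (hX.R.at x y z) = hY.R.at (φ x) (φ y) (u z)
  isAlg_iff : ∀ x, IsAlg N x ↔ IsAlg N' (φ x)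
  hodge : ∃ t : ℂ, t ≠ 0 ∧ φ.baseChange ℂ hX.ω = t • hY.ω
  contractions : Conjugates (u.baseChange ℂ) hX.HT hY.HT

/-- The field `K` is the field of rational numbers. -/
def IsRationalField (K : Type v) [Field K] : Prop := ∀ r : K, ∃ s : ℚ, (s : K) = r

/-- The linear map `f` is an isomorphism of graded rings, with inverse `f'`. -/
structure IsGradedRingIso (G : ℕ → Submodule K A) (G' : ℕ → Submodule K B) (f : A →ₗ[K] B)
    (f' : B →ₗ[K] A) : Prop where
  inverse : MutuallyInverse f f'
  degree : ∀ i, ∀ x ∈ G i, f x ∈ G' i
  one : f 1 = 1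
  mul : ∀ x y, f (x * y) = f x * f y

/-- The linear map `u` is the image under `f` of a `K`-linear combination of elements of `S`. -/
def IsInduced {C : Type v} [Ring C] [Algebra K C] (f : C → (A →ₗ[K] B)) (S : Set C)
    (u : A →ₗ[K] B) : Prop := ∃ γ ∈ Submodule.span K S, f γ = u

/-- The `K`-linear combinations of elements of `S`. -/
def spanOf (K : Type v) {A : Type v} [Field K] [Ring A] [Algebra K A] (S : Set A) :
    Submodule K A := Submodule.span K S

end Data

open Pool.Agent.H914 VarClass Obj WeilCohomology

variable {k : Type u} [Field k] {𝒱 : VarClass k} {ops : CycleOps 𝒱}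

/-- The class `c` is the class of a cycle of codimension `p`. -/
def IsCycleClass (W : WeilCohomology.{u, v} ops) (X : 𝒱.Obj) (p : ℕ) (c : W.H X) : Prop :=
  ∃ z, X.IsCyc p z ∧ W.cl X z = c

/-- The operator `u : H(X) → H(Y)` is algebraic: it is induced by a combination, with coefficients
in the coefficient field, of algebraic cycles of all codimensions on `X × Y`. -/
def IsAlgebraic (W : WeilCohomology.{u, v} ops) (X Y : 𝒱.Obj) (u : W.H X →ₗ[W.K] W.H Y) : Prop :=
  IsInduced W.corr {c | ∃ p, IsCycleClass W (X.prod Y) p c} u

/-- The data for the variety `X`, see `HKData`. -/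
abbrev Hyperkahler (W : WeilCohomology.{u, v} ops) [Algebra W.K ℂ] (X : 𝒱.Obj) : Type v :=
  HKData (W.gr X) (spanOf W.K {c | IsCycleClass W X 1 c}) X.dim

/-- The data for a derived equivalence, see `DEData`. -/
abbrev DerivedEquivalence {W : WeilCohomology.{u, v} ops} [Algebra W.K ℂ] {X Y : 𝒱.Obj}
    (hX : Hyperkahler W X) (hY : Hyperkahler W Y) : Type v :=
  DEData hX hY (IsAlgebraic W X Y) (IsAlgebraic W Y X)

/-- The cycles `z` and `w` have the same class. -/
def HomEq (W : WeilCohomology.{u, v} ops) {X : 𝒱.Obj} (z w : X.Cycles) : Prop :=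
  W.cl X z = W.cl X w

/-- The diagonal of `X × X`, as a cycle. -/
noncomputable def diagonal (ops : CycleOps 𝒱) (X : 𝒱.Obj) : (X.prod X).Cycles :=
  ops.push (diag X) X.V.fundCycle

/-- The operator in cohomology given by a cycle on `X × Y`. -/
noncomputable def cycleOperator (W : WeilCohomology.{u, v} ops) (X Y : 𝒱.Obj)
    (z : (X.prod Y).Cycles) : W.H X →ₗ[W.K] W.H Y := W.corr (W.cl _ z)

/-- The cycles `z` on `X × Y` and `z'` on `Y × X`, of codimensions `dim X` and `dim Y`, have
mutually inverse cohomology classes (for the composition of correspondences), and `z` induces an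
isomorphism of graded rings from `H(X)` to `H(Y)`: an isomorphism of the homological motives of `X`
and `Y` respecting the cup product. -/
structure IsMotivicRingIso (W : WeilCohomology.{u, v} ops) (X Y : 𝒱.Obj)
    (z : (X.prod Y).Cycles) (z' : (Y.prod X).Cycles) : Prop where
  codim : (X.prod Y).IsCyc X.dim z
  codim' : (Y.prod X).IsCyc Y.dim z'
  comp : HomEq W (compCyc ops z z') (diagonal ops X)
  comp' : HomEq W (compCyc ops z' z) (diagonal ops Y)
  ringIso : IsGradedRingIso (W.gr X) (W.gr Y) (cycleOperator W X Y z) (cycleOperator W Y X z')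

end Pool.Agent.N180.MOS
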