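import Pool.Agent.N180.MO.Geo
import Pool.Agent.N180.MO.Stm

/-!
# The multiplicative Orlov conjecture for homological motives
-/

open CategoryTheory AlgebraicGeometry Finset TensorProduct

universe u v

namespace Pool.Agent.N180.MOS

section Rep

variable {F V H : Type*} [Field F] [CharZero F] [AddCommGroup V] [Module F V] [AddCommGroup H]
  [Module F H] {b : Form F V} {R : Act F V H}

omit [CharZero F] in
lemma IsRep.old (h : IsRep b R) : MO.IsRep b.lin R.lin where
  alt := h.alt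
  lie := h.lie

omit [CharZero F] in
lemma expWedge_eq (l x z : V) : expWedge b l x z = MO.eich b.lin l x z := by
  rw [MO.eich_apply]
  rfl

lemma Spin.old (hs : ∀ x y, b.at x y = b.at y x) {g : Module.End F H} {e : V → V}
    (h : Spin b R g e) : ∃ p ∈ MO.spin b.lin R.lin, p.1 = g ∧ ∀ x, p.2 x = e x := by
  induction h with
  | one => exact ⟨1, one_mem _, rfl, fun _ => rfl⟩
  | mul l x g' g e hl hx hg' _ ih =>
    obtain ⟨p, hp, h1, h2⟩ := ih
    refine ⟨(g', MO.eich b.lin l x) * p, mul_mem (MO.mem_spin_gen hs hl hx hg') hp, ?_, ?_⟩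
    · rw [Prod.fst_mul, h1]
    · intro z
      rw [Prod.snd_mul, Module.End.mul_apply, h2]
      exact (expWedge_eq l x (e z)).symm

omit [CharZero F] in
lemma Spin.trans {g g' : Module.End F H} {e e' : V → V} (h : Spin b R g e)
    (h' : Spin b R g' e') : Spin b R (g * g') (fun z => e (e' z)) := by
  induction h with
  | one => rw [one_mul]; exact h'
  | mul l x g₁ g₂ e₂ hl hx hg _ ih =>
    rw [mul_assoc]
    exact Spin.mul l x g₁ _ _ hl hx hg ih

lemma spin_new (hs : ∀ x y, b.at x y = b.at y x) {p : Module.End F H × Module.End F V}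
    (hp : p ∈ MO.spin b.lin R.lin) : Spin b R p.1 p.2 := by
  induction hp using Submonoid.closure_induction with
  | mem p hp =>
    obtain ⟨l, x, hl, hx, h1, h2⟩ := hp
    have h3 : ⇑p.2 = fun z => expWedge b l x (id z) := by
      rw [h2.unique (MO.isExp_eich hs hl hx)]
      funext z
      exact (expWedge_eq l x z).symm
    rw [h3, ← mul_one p.1]
    exact Spin.mul l x _ _ _ hl hx h1 Spin.one
  | one => exact Spin.one
  | mul p q _ _ hp hq => exact hp.trans hq

end Rep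

open Pool.Agent.H914 VarClass Obj WeilCohomology Pool.Agent.N190 Pool.Agent.N190.Opp
  Pool.Agent.N180.MO

variable {k : Type u} [Field k] {𝒱 : VarClass k} {ops : CycleOps 𝒱}
  {W : WeilCohomology.{u, v} ops} {X Y : 𝒱.Obj}

lemma span_divisor : spanOf W.K {c | IsCycleClass W X 1 c} = spanCycles W X 1 := by
  rw [spanOf, spanCycles]
  congr 1
  ext c
  constructor
  · rintro ⟨z, hz, h⟩
    exact ⟨1, rfl, z, hz, h⟩
  · rintro ⟨q, hq, z, hz, h⟩
    obtain rfl : q = 1 := by exact_mod_cast hq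
    exact ⟨z, hz, h⟩

lemma isAlgebraic_mix {u : W.H X →ₗ[W.K] W.H Y} (h : IsAlgebraic W X Y u) : u ∈ KMix W X Y := by
  obtain ⟨γ, hγ, rfl⟩ := h
  apply corr_mix
  refine Submodule.span_le.2 ?_ hγ
  rintro c ⟨p, z, hz, rfl⟩
  exact Submodule.mem_iSup_of_mem p (Submodule.subset_span ⟨p, rfl, z, hz, rfl⟩)

/-- The algebraic part of the extended Mukai space. -/
def algSub (W : WeilCohomology.{u, v} ops) (X : 𝒱.Obj) : Submodule W.K (Mk (W.gr X)) where
  carrier := {x | IsAlg (spanOf W.K {c | IsCycleClass W X 1 c}) x}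
  add_mem' := fun ha hb => Submodule.add_mem ((spanOf W.K {c | IsCycleClass W X 1 c})) ha hb
  zero_mem' := Submodule.zero_mem ((spanOf W.K {c | IsCycleClass W X 1 c}))
  smul_mem' := fun c _ ha => Submodule.smul_mem ((spanOf W.K {c | IsCycleClass W X 1 c})) c ha

lemma alg_α : vecα (W.gr X) ∈ algSub W X := Submodule.zero_mem ((spanOf W.K {c | IsCycleClass W X 1 c}))

lemma alg_β : vecβ (W.gr X) ∈ algSub W X := Submodule.zero_mem ((spanOf W.K {c | IsCycleClass W X 1 c}))

/-- The vector `(r, x, s)` of the extended Mukai space. -/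
def mkM {X : 𝒱.Obj} (r : W.K) (x : W.gr X 2) (s : W.K) : Mk (W.gr X) := (r, x, s)

/-- The inclusion of `H^2` in the extended Mukai space. -/
def inH (W : WeilCohomology.{u, v} ops) (X : 𝒱.Obj) : (W.gr X 2) →ₗ[W.K] Mk (W.gr X) where
  toFun := fun x => mkM 0 x 0
  map_add' := fun x y => by
    change ((0, x + y, 0) : W.K × (W.gr X 2) × W.K) = (0 + 0, x + y, 0 + 0)
    rw [add_zero]
  map_smul' := fun c x => by
    change ((0, c • x, 0) : W.K × (W.gr X 2) × W.K) = (c • 0, c • x, c • 0)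
    rw [smul_zero]

/-- The projection of the extended Mukai space to `H^2`. -/
def prH (W : WeilCohomology.{u, v} ops) (X : 𝒱.Obj) : Mk (W.gr X) →ₗ[W.K] (W.gr X 2) where
  toFun := fun x => Prod.fst (Prod.snd x)
  map_add' := fun _ _ => rfl
  map_smul' := fun _ _ => rfl

/-- The inclusion of `H^2` in the cohomology. -/
def clsH (W : WeilCohomology.{u, v} ops) (X : 𝒱.Obj) : (W.gr X 2) →ₗ[W.K] W.H X :=
  (W.gr X 2).subtype

namespace Hyperkahler

variable [Algebra W.K ℂ] (h : Hyperkahler W X)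

lemma form_eq (r : W.K) (x : (W.gr X 2)) (s r' : W.K) (x' : (W.gr X 2)) (s' : W.K) :
    h.b.lin (mkM r x s) (mkM r' x' s') = h.q.lin x x' - r * s' - s * r' := h.mukai r x s r' x' s'

lemma hyp : Hyp h.b.lin (vecα (W.gr X)) (vecβ (W.gr X)) where
  symm := h.rep.symm
  αα := by
    have := h.form_eq 1 0 0 1 0 0
    simp only [map_zero, mul_zero, zero_mul, sub_zero] at this
    exact this
  ββ := by
    have := h.form_eq 0 0 1 0 0 1
    simp only [map_zero, mul_zero, zero_mul, sub_zero] at this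
    exact this
  αβ := by
    have := h.form_eq 1 0 0 0 0 1
    simp only [map_zero, mul_zero, mul_one, sub_zero, zero_sub] at this
    exact this

lemma form_β (r : W.K) (x : (W.gr X 2)) (s : W.K) : h.b.lin (vecβ (W.gr X)) (mkM r x s) = -r := by
  have := h.form_eq 0 0 1 r x s
  simp only [map_zero, LinearMap.zero_apply, zero_mul, one_mul, sub_zero, zero_sub] at this
  exact this

lemma form_α (r : W.K) (x : (W.gr X 2)) (s : W.K) : h.b.lin (vecα (W.gr X)) (mkM r x s) = -s := by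
  have := h.form_eq 1 0 0 r x s
  simp only [map_zero, LinearMap.zero_apply, zero_mul, one_mul, sub_zero, zero_sub] at this
  exact this

lemma mk_eq (r : W.K) (x : (W.gr X 2)) (s : W.K) :
    mkM r x s = r • vecα (W.gr X) + mkM 0 x 0 + s • vecβ (W.gr X) := by
  change ((r, x, s) : W.K × (W.gr X 2) × W.K) =
    (r • 1 + 0 + s • 0, r • 0 + x + s • 0, r • 0 + 0 + s • 1)
  simp

lemma Rβ (x : (W.gr X 2)) :
    h.R.lin (vecβ (W.gr X)) (mkM 0 x 0) = -LinearMap.mulLeft W.K (x : W.H X) := by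
  rw [h.rep.old.skew]
  congr 1
  apply LinearMap.ext
  intro y
  exact h.cup x y

lemma good_β : Good h.b.lin h.R.lin (mixAlg W X) (algSub W X) (vecβ (W.gr X)) := by
  rintro ⟨r, l, s⟩ hx hb
  have hr : r = 0 := by
    have := h.form_β r l s
    change h.b.lin (vecβ (W.gr X)) (mkM r l s) = 0 at hb
    rw [hb] at this
    exact neg_eq_zero.1 this.symm
  subst hr
  have h1 : h.R.lin (vecβ (W.gr X)) (mkM 0 l s) = -LinearMap.mulLeft W.K (l : W.H X) := by
    rw [mk_eq 0 l s, map_add, map_add, map_smul, map_smul, h.rep.old.alt, smul_zero, add_zero,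
      zero_smul, zero_add, h.Rβ]
  change h.R.lin (vecβ (W.gr X)) (mkM 0 l s) ∈ _ ∧ IsNilpotent (h.R.lin (vecβ (W.gr X)) (mkM 0 l s))
  rw [h1]
  have hx' : (l : W.H X) ∈ spanCycles W X 1 := by
    have h2 : (l : W.H X) ∈ (spanOf W.K {c | IsCycleClass W X 1 c}) := hx
    rwa [span_divisor] at h2
  exact ⟨Submodule.neg_mem _ (mulLeft_mix hx'), (mulLeft_nilpotent (even_nilpotent l.2)).neg⟩

lemma nondeg_alg (x : Mk (W.gr X)) (hx : x ∈ algSub W X)
    (h0 : ∀ y ∈ algSub W X, h.b.lin x y = 0) : x = 0 := by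
  obtain ⟨r, l, s⟩ := x
  change ∀ y ∈ algSub W X, h.b.lin (mkM r l s) y = 0 at h0
  have hs : s = 0 := by
    have h1 := h0 (vecα (W.gr X)) alg_α
    rw [h.hyp.symm, h.form_α] at h1
    exact neg_eq_zero.1 h1
  have hr : r = 0 := by
    have h1 := h0 (vecβ (W.gr X)) alg_β
    rw [h.hyp.symm, h.form_β] at h1
    exact neg_eq_zero.1 h1
  subst hs hr
  have hl : l = 0 := by
    apply h.nondeg l hx
    intro y hy
    have h3 := h0 (mkM 0 y 0) hy
    rw [h.form_eq] at h3
    simp only [mul_zero, sub_zero] at h3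
    exact h3
  rw [hl]
  rfl

lemma split (x : Mk (W.gr X)) : inH W X (prH W X x) =
    x + h.b.lin (vecβ (W.gr X)) x • vecα (W.gr X) + h.b.lin (vecα (W.gr X)) x • vecβ (W.gr X) := by
  obtain ⟨r, l, s⟩ := x
  change mkM 0 l 0 = mkM r l s + h.b.lin (vecβ (W.gr X)) (mkM r l s) • vecα (W.gr X) +
    h.b.lin (vecα (W.gr X)) (mkM r l s) • vecβ (W.gr X)
  rw [h.form_β, h.form_α, mk_eq r l s]
  module

/-- The elements `x` orthogonal to `α` and `β`. -/
lemma cent (x : ℂ ⊗[W.K] Mk (W.gr X)) (h1 : h.b.cx.lin (1 ⊗ₜ vecα (W.gr X)) x = 0)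
    (h2 : h.b.cx.lin (1 ⊗ₜ vecβ (W.gr X)) x = 0) :
    IsNilpotent (h.R.cx.lin (1 ⊗ₜ vecβ (W.gr X)) x) ∧ ∀ z y : ℂ ⊗[W.K] W.H X,
      h.R.cx.lin (1 ⊗ₜ vecβ (W.gr X)) x (z * y) = z * h.R.cx.lin (1 ⊗ₜ vecβ (W.gr X)) x y := by
  have key : ∀ m : ℂ ⊗[W.K] (W.gr X 2), ∃ c : ℂ ⊗[W.K] W.H X, IsNilpotent c ∧
      (∀ y, c * y = y * c) ∧ opC h.R.lin (1 ⊗ₜ vecβ (W.gr X)) ((inH W X).baseChange ℂ m) =
        -LinearMap.mulLeft ℂ c := by
    intro m
    induction m using TensorProduct.induction_on with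
    | zero => exact ⟨0, IsNilpotent.zero, by simp, by simp⟩
    | add m m' hm hm' =>
      obtain ⟨c, hc, hc1, hc2⟩ := hm
      obtain ⟨c', hc', hc1', hc2'⟩ := hm'
      refine ⟨c + c', Commute.isNilpotent_add (hc1 c') hc hc', fun y => ?_, ?_⟩
      · rw [add_mul, mul_add, hc1, hc1']
      · rw [map_add, map_add, hc2, hc2']
        apply LinearMap.ext
        intro z
        simp only [LinearMap.add_apply, LinearMap.neg_apply, LinearMap.mulLeft_apply, add_mul]
        abel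
    | tmul a m =>
      refine ⟨a ⊗ₜ (m : W.H X), ?_, ?_, ?_⟩
      · obtain ⟨n, hn⟩ := even_nilpotent m.2
        change (m : W.H X) ^ n = 0 at hn
        exact ⟨n, by rw [Algebra.TensorProduct.tmul_pow, hn, TensorProduct.tmul_zero]⟩
      · intro y
        induction y using TensorProduct.induction_on with
        | zero => simp
        | add y y' hy hy' => rw [mul_add, add_mul, hy, hy']
        | tmul c y =>
          rw [Algebra.TensorProduct.tmul_mul_tmul, Algebra.TensorProduct.tmul_mul_tmul,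
            show (m : W.H X) * y = y * (m : W.H X) from even_central m.2 y, mul_comm]
      · rw [LinearMap.baseChange_tmul, opC_tmul, one_mul]
        have h3 : inH W X m = mkM 0 m 0 := rfl
        rw [h3, h.Rβ, LinearMap.baseChange_neg, smul_neg]
        congr 1
        apply LinearMap.ext
        intro z
        induction z using TensorProduct.induction_on with
        | zero => simp
        | add y y' hy hy' => rw [map_add, map_add, hy, hy']
        | tmul c y =>
          rw [LinearMap.smul_apply, LinearMap.baseChange_tmul, LinearMap.mulLeft_apply,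
            LinearMap.mulLeft_apply, Algebra.TensorProduct.tmul_mul_tmul,
            TensorProduct.smul_tmul', smul_eq_mul]
  obtain ⟨c, hc, hc1, hc2⟩ := key ((prH W X).baseChange ℂ x)
  have hx : x = (inH W X).baseChange ℂ ((prH W X).baseChange ℂ x) :=
    exists_inM (b := h.b.lin) h.split h1 h2
  rw [← hx] at hc2
  change IsNilpotent (opC h.R.lin (1 ⊗ₜ vecβ (W.gr X)) x) ∧ ∀ z y : ℂ ⊗[W.K] W.H X,
    opC h.R.lin (1 ⊗ₜ vecβ (W.gr X)) x (z * y) = z * opC h.R.lin (1 ⊗ₜ vecβ (W.gr X)) x y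
  rw [hc2]
  refine ⟨(mulLeft_nilpotent hc).neg, fun z y => ?_⟩
  rw [LinearMap.neg_apply, LinearMap.neg_apply, LinearMap.mulLeft_apply, LinearMap.mulLeft_apply,
    ← mul_assoc, hc1, mul_assoc, mul_neg]

lemma degL (i : ℕ) (y : W.H X) (hy : y ∈ W.gr X i) :
    (2 : W.K) • h.R.lin (vecβ (W.gr X)) (vecα (W.gr X)) y = ((i : W.K) - X.dim) • y := h.deg i y hy

/-- The elements on which the degree operator acts as on `H^i`. -/
lemma mem_gr {i : ℕ} {y : W.H X} (hy : (2 : W.K) • h.R.lin (vecβ (W.gr X)) (vecα (W.gr X)) y =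
    ((i : W.K) - X.dim) • y) : y ∈ W.gr X i := by
  have key : ∀ (j : ℕ) (y : W.H X), proj (W.isInternal X) j
      ((2 : W.K) • h.R.lin (vecβ (W.gr X)) (vecα (W.gr X)) y) =
      ((j : W.K) - X.dim) • proj (W.isInternal X) j y := by
    intro j y
    refine gr_induction (W.isInternal X) (p := fun y => proj (W.isInternal X) j
      ((2 : W.K) • h.R.lin (vecβ (W.gr X)) (vecα (W.gr X)) y) =
      ((j : W.K) - X.dim) • proj (W.isInternal X) j y) ?_ ?_ y
    · intro l y hy
      rw [h.degL l y hy, map_smul]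
      by_cases hl : l = j
      · subst hl; rfl
      · rw [proj_ne _ hy hl, smul_zero, smul_zero]
    · intro a b ha hb
      rw [map_add, smul_add, map_add, ha, hb, map_add, smul_add]
  have h1 : y = proj (W.isInternal X) i y := by
    apply eq_of_proj
    intro j
    by_cases hj : i = j
    · subst hj
      rw [proj_same _ (proj_mem _ _ _)]
    · rw [proj_ne _ (proj_mem _ _ _) hj]
      have h2 := key j y
      rw [hy, map_smul, ← sub_eq_zero, ← sub_smul] at h2
      refine (smul_eq_zero.1 h2).resolve_left ?_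
      rw [sub_sub_sub_cancel_right, sub_eq_zero]
      exact_mod_cast hj
  rw [h1]
  exact proj_mem _ _ _

end Hyperkahler

/-- The algebraic isomorphism which preserves the degrees. -/
theorem exists_iso [Algebra W.K ℂ] {hX : Hyperkahler W X} {hY : Hyperkahler W Y}
    (D : DerivedEquivalence hX hY) : ∃ p ∈ MO.spin hY.b.lin hY.R.lin, ∃ t : W.K, t ≠ 0 ∧
      p.2 (D.φ (vecβ (W.gr X))) = t • vecβ (W.gr Y) ∧
      p.1 ∘ₗ D.u ∈ KMix W X Y ∧ (∀ i, ∀ x ∈ W.gr X i, p.1 (D.u x) ∈ W.gr Y i) ∧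
      ∃ s' : W.H Y →ₗ[W.K] W.H X, s' ∈ KMix W Y X ∧ (∀ x, s' (p.1 (D.u x)) = x) ∧
        ∀ y, p.1 (D.u (s' y)) = y := by
  have bX := hX.hyp
  have bY := hY.hyp
  have rY := hY.rep.old
  have hu := isAlgebraic_mix D.algebraic
  have hv := isAlgebraic_mix D.algebraic'
  have hsim : ∀ x y, hY.b.lin (D.φ x) (D.φ y) = D.c * hX.b.lin x y := D.similitude
  have hcomm : ∀ x y z, D.c • D.u (hX.R.lin x y z) = hY.R.lin (D.φ x) (D.φ y) (D.u z) := D.comm
  have hg : Good hY.b.lin hY.R.lin (mixAlg W Y) (algSub W Y) (D.φ (vecβ (W.gr X))) := by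
    intro x hx hb
    obtain ⟨x', rfl⟩ := D.surjective x
    have hx' : x' ∈ algSub W X := (D.isAlg_iff x').2 hx
    rw [hsim] at hb
    obtain ⟨h1, h2⟩ := hX.good_β x' hx' ((mul_eq_zero.1 hb).resolve_left D.c_ne)
    have h3 : hY.R.lin (D.φ (vecβ (W.gr X))) (D.φ x') =
        D.c • (D.u ∘ₗ hX.R.lin (vecβ (W.gr X)) x' ∘ₗ D.v) := by
      apply LinearMap.ext
      intro y
      have h4 := hcomm (vecβ (W.gr X)) x' (D.v y)
      simp only [LinearMap.smul_apply, LinearMap.comp_apply, D.inverse.2 y] at h4 ⊢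
      exact h4.symm
    rw [h3]
    refine ⟨Submodule.smul_mem _ _ (KMix.comp hu (KMix.comp h1 hv)), ?_⟩
    refine IsNilpotent.smul ?_ _
    obtain ⟨m, hm⟩ := h2
    refine ⟨m, ?_⟩
    have key : ∀ i y, ((D.u ∘ₗ hX.R.lin (vecβ (W.gr X)) x' ∘ₗ D.v : Module.End W.K (W.H Y)) ^ i) y =
        D.u (((hX.R.lin (vecβ (W.gr X)) x') ^ i) (D.v y)) := by
      intro i
      induction i with
      | zero => intro y; simp [D.inverse.2 y]
      | succ i ih =>
        intro y
        rw [pow_succ, pow_succ, Module.End.mul_apply, Module.End.mul_apply, ih]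
        simp only [LinearMap.comp_apply, D.inverse.1]
    apply LinearMap.ext
    intro y
    rw [key, hm]
    simp
  obtain ⟨p, hp, r, t, hrt, hpα, hpβ⟩ := exists_move (v := D.φ (vecβ (W.gr X))) (w := D.φ (vecα (W.gr X)))
    rY bY alg_α alg_β hY.nondeg_alg (by
      obtain ⟨x, hx, hx0⟩ := hY.ample
      refine ⟨mkM 0 x 0, hx, ?_, ?_, ?_⟩
      · rw [hY.form_α, neg_zero]
      · rw [hY.form_β, neg_zero]
      · rw [hY.form_eq, mul_zero, sub_zero, sub_zero]
        exact hx0) hY.good_β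
    ((D.isAlg_iff _).1 alg_β) ((D.isAlg_iff _).1 alg_α)
    (by rw [hsim, bX.ββ, mul_zero]) (by rw [hsim, bX.αα, mul_zero]) D.c_ne
    (by rw [hsim, bX.αβ, mul_neg_one]) hg
  have hps := GA_spin bY.symm hp
  obtain ⟨p', hp', h5, h6⟩ := GA_inv bY.symm hp
  have h5a : ∀ z, p.1 (p'.1 z) = z := fun z => LinearMap.congr_fun (congrArg Prod.fst h5) z
  have h6a : ∀ z, p'.1 (p.1 z) = z := fun z => LinearMap.congr_fun (congrArg Prod.fst h6) z
  have ht : t ≠ 0 := by
    rintro rfl
    rw [mul_zero] at hrt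
    exact D.c_ne hrt.symm
  refine ⟨p, hps, t, ht, hpβ, KMix.comp (GA_mem hp) hu, ?_, D.v ∘ₗ p'.1,
    KMix.comp hv (GA_mem hp'), ?_, ?_⟩
  · intro i x hx
    apply hY.mem_gr
    have h7 := hcomm (vecβ (W.gr X)) (vecα (W.gr X)) x
    have h8 := LinearMap.congr_fun (spin_act rY bY.symm hps (D.φ (vecβ (W.gr X)))
      (D.φ (vecα (W.gr X)))) (D.u x)
    simp only [Module.End.mul_apply] at h8
    rw [hpα, hpβ, ← h7, map_smul, map_smul, map_smul] at h8
    simp only [LinearMap.smul_apply, smul_smul] at h8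
    rw [hrt] at h8
    have h9 : p.1 (D.u (hX.R.lin (vecβ (W.gr X)) (vecα (W.gr X)) x)) =
        hY.R.lin (vecβ (W.gr Y)) (vecα (W.gr Y)) (p.1 (D.u x)) := smul_right_injective _ D.c_ne h8
    have hd : (X.dim : W.K) = (Y.dim : W.K) := congrArg _ D.dim_eq
    rw [← h9, ← map_smul, ← map_smul, hX.degL i x hx, map_smul, map_smul, hd]
  · intro x
    rw [LinearMap.comp_apply, h6a, D.inverse.1]
  · intro y
    rw [LinearMap.comp_apply, D.inverse.2, h5a]

/-- The extension of the isomorphism conjugates cup products to cup products. -/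
theorem exists_conj [Algebra W.K ℂ] {hX : Hyperkahler W X} {hY : Hyperkahler W Y}
    (D : DerivedEquivalence hX hY) {p : Module.End W.K (W.H Y) × Module.End W.K (Mk (W.gr Y))}
    (hp : p ∈ MO.spin hY.b.lin hY.R.lin) {t : W.K} (ht : t ≠ 0)
    (hpβ : p.2 (D.φ (vecβ (W.gr X))) = t • vecβ (W.gr Y)) (x : ℂ ⊗[W.K] W.H X) :
    ∃ z : ℂ ⊗[W.K] W.H Y, ∀ y, (p.1 ∘ₗ D.u).baseChange ℂ (x * y) = z * (p.1 ∘ₗ D.u).baseChange ℂ y := by
  obtain ⟨w₀, e₀, hw₀, ⟨a, ha, hwβ₀⟩, hwc₀⟩ := hX.verbitsky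
  obtain ⟨w, hw, hw1, hw2⟩ := hw₀.old (fun x y => formC_symm (b := hX.b.lin) hX.rep.symm x y)
  obtain ⟨w₀', e₀', hw₀', ⟨a', ha', hwβ₀'⟩, hwc₀'⟩ := hY.verbitsky
  obtain ⟨w', hw', hw1', hw2'⟩ := hw₀'.old
    (fun x y => formC_symm (b := hY.b.lin) hY.rep.symm x y)
  obtain ⟨t', ht', hω⟩ := D.hodge
  subst hw1 hw1'
  have hu : Function.Surjective (D.u.baseChange ℂ) := by
    intro y
    refine ⟨D.v.baseChange ℂ y, ?_⟩
    change (D.u.baseChange ℂ ∘ₗ D.v.baseChange ℂ) y = y
    rw [← LinearMap.baseChange_comp]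
    have : D.u ∘ₗ D.v = LinearMap.id := LinearMap.ext D.inverse.2
    rw [this, LinearMap.baseChange_id]
    rfl
  have hφ : Function.Surjective (D.φ.baseChange ℂ) := LinearMap.lTensor_surjective ℂ D.surjective
  have hc : algebraMap W.K ℂ D.c ≠ 0 := by
    rw [Ne, map_eq_zero]
    exact D.c_ne
  have hb : ∀ x y : ℂ ⊗[W.K] Mk (W.gr X), formC hY.b.lin (D.φ.baseChange ℂ x)
      (D.φ.baseChange ℂ y) = algebraMap W.K ℂ D.c * formC hX.b.lin x y := by
    intro x y
    induction x using TensorProduct.induction_on with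
    | zero => simp
    | add x x' hx hx' => simp only [map_add, LinearMap.add_apply, hx, hx', mul_add]
    | tmul a x =>
      induction y using TensorProduct.induction_on with
      | zero => simp
      | add y y' hy hy' => simp only [map_add, hy, hy', mul_add]
      | tmul c y =>
        have h1 : hY.b.lin (D.φ x) (D.φ y) = D.c * hX.b.lin x y := D.similitude x y
        rw [LinearMap.baseChange_tmul, LinearMap.baseChange_tmul, formC_tmul, formC_tmul, h1,
          mul_smul, Algebra.smul_def]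
  have hR : ∀ x y : ℂ ⊗[W.K] Mk (W.gr X),
      algebraMap W.K ℂ D.c • (D.u.baseChange ℂ ∘ₗ opC hX.R.lin x y) =
      opC hY.R.lin (D.φ.baseChange ℂ x) (D.φ.baseChange ℂ y) ∘ₗ D.u.baseChange ℂ := by
    intro x y
    induction x using TensorProduct.induction_on with
    | zero => simp
    | add x x' hx hx' =>
      simp only [map_add, LinearMap.add_apply, LinearMap.comp_add, LinearMap.add_comp, smul_add,
        hx, hx']
    | tmul a x =>
      induction y using TensorProduct.induction_on with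
      | zero => simp
      | add y y' hy hy' =>
        simp only [map_add, LinearMap.comp_add, LinearMap.add_comp, smul_add, hy, hy']
      | tmul c y =>
        have h1 : D.c • (D.u ∘ₗ hX.R.lin x y) = hY.R.lin (D.φ x) (D.φ y) ∘ₗ D.u := by
          apply LinearMap.ext
          intro z
          exact D.comm x y z
        rw [LinearMap.baseChange_tmul, LinearMap.baseChange_tmul, opC_tmul, opC_tmul,
          LinearMap.comp_smul, LinearMap.smul_comp, ← LinearMap.baseChange_comp,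
          ← LinearMap.baseChange_comp, ← h1, LinearMap.baseChange_smul, algebraMap_smul, smul_comm]
  have rC : MO.IsRep hY.b.cx.lin hY.R.cx.lin := isRepC hY.rep.old
  have hC : Hyp hY.b.cx.lin (1 ⊗ₜ vecα (W.gr Y)) (1 ⊗ₜ vecβ (W.gr Y)) := hypC hY.hyp
  have sC : (p.1.baseChange ℂ, (p.2.baseChange ℂ)) ∈ MO.spin hY.b.cx.lin hY.R.cx.lin := spinC hp
  have eβ : p.2.baseChange ℂ (D.φ.baseChange ℂ (1 ⊗ₜ vecβ (W.gr X))) =
      algebraMap W.K ℂ t • 1 ⊗ₜ vecβ (W.gr Y) := by
    change p.2.baseChange ℂ (D.φ.baseChange ℂ (1 ⊗ₜ vecβ (W.gr X))) =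
      algebraMap W.K ℂ t • (1 ⊗ₜ[W.K] vecβ (W.gr Y) : ℂ ⊗[W.K] Mk (W.gr Y))
    rw [LinearMap.baseChange_tmul, LinearMap.baseChange_tmul, hpβ, TensorProduct.tmul_smul]
    exact (algebraMap_smul ℂ t (1 ⊗ₜ[W.K] vecβ (W.gr Y) : ℂ ⊗[W.K] Mk (W.gr Y))).symm
  obtain ⟨z, hz⟩ := core (b := hX.b.cx.lin) (R := hX.R.cx.lin) rC hC hY.cent
    (fun g hg hgc => hY.automorphism g.1 g.2 (spin_new (hC.symm) hg) hgc)
    hw ha ((hw2 _).trans hwβ₀) hwc₀ hw' ha' ((hw2' _).trans hwβ₀') hwc₀' hu hφ hc hb hR ht' hω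
    D.contractions sC (r := algebraMap W.K ℂ t) (by rw [Ne, map_eq_zero]; exact ht) eβ x
  refine ⟨z, fun y => ?_⟩
  have h4 := hz y
  have h5 : ∀ y, (p.1 ∘ₗ D.u).baseChange ℂ y = p.1.baseChange ℂ (D.u.baseChange ℂ y) := by
    intro y
    change (p.1 ∘ₗ D.u).baseChange ℂ y = p.1.baseChange ℂ (D.u.baseChange ℂ y)
    rw [LinearMap.baseChange_comp]
    rfl
  rw [h5, h5]
  exact h4

/-- The isomorphism is multiplicative up to a scalar. -/
theorem exists_mult [Algebra W.K ℂ] {hX : Hyperkahler W X} {hY : Hyperkahler W Y}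
    (D : DerivedEquivalence hX hY) : ∃ s ∈ KMix W X Y, ∃ s' ∈ KMix W Y X,
      (∀ x, s' (s x) = x) ∧ (∀ y, s (s' y) = y) ∧ (∀ i, ∀ x ∈ W.gr X i, s x ∈ W.gr Y i) ∧
      s 1 = 1 ∧ ∀ x y, s (x * y) = s x * s y := by
  obtain ⟨p, hp, t, ht, hpβ, hs, hdeg, s', hs', h1, h2⟩ := exists_iso D
  have hcore := exists_conj D hp ht hpβ
  set S : W.H X →ₗ[W.K] W.H Y := p.1 ∘ₗ D.u with hS
  obtain ⟨c₀, hc₀, hS1⟩ : ∃ c₀ : W.K, c₀ ≠ 0 ∧ S 1 = c₀ • 1 := by
    have h3 := hdeg 0 1 (W.one_mem X)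
    rw [W.gr_zero, Submodule.mem_span_singleton] at h3
    obtain ⟨c₀, hc₀⟩ := h3
    by_cases h4 : c₀ = 0
    · have h5 : (1 : W.H X) = 0 := by
        rw [← h1 1, ← hc₀, h4, zero_smul, map_zero]
      have h6 : (1 : W.H Y) = 0 := by
        have h7 : s' (1 : W.H Y) = 0 := by
          rw [← mul_one (s' 1), h5, mul_zero]
        rw [← h2 1, h7, map_zero, map_zero]
      refine ⟨1, one_ne_zero, ?_⟩
      rw [← mul_one (S 1), h6, mul_zero, smul_zero]
    · exact ⟨c₀, h4, hc₀.symm⟩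
  have hmul : ∀ x y, c₀ • S (x * y) = S x * S y := by
    intro x y
    obtain ⟨z, hz⟩ : ∃ z : ℂ ⊗[W.K] W.H Y, ∀ y : ℂ ⊗[W.K] W.H X,
      S.baseChange ℂ ((1 ⊗ₜ x) * y) = z * S.baseChange ℂ y := hcore (1 ⊗ₜ[W.K] x : ℂ ⊗[W.K] W.H X)
    have e1 := hz 1
    rw [mul_one, LinearMap.baseChange_tmul, Algebra.TensorProduct.one_def,
      LinearMap.baseChange_tmul, hS1, TensorProduct.tmul_smul, mul_smul_comm,
      ← Algebra.TensorProduct.one_def, mul_one] at e1
    have e2 := hz (1 ⊗ₜ y)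
    rw [Algebra.TensorProduct.tmul_mul_tmul, mul_one, LinearMap.baseChange_tmul,
      LinearMap.baseChange_tmul] at e2
    have e3 : (1 : ℂ) ⊗ₜ[W.K] (c₀ • S (x * y)) = (1 : ℂ) ⊗ₜ[W.K] (S x * S y) := by
      rw [TensorProduct.tmul_smul, e2, ← smul_mul_assoc, ← e1,
        Algebra.TensorProduct.tmul_mul_tmul, mul_one]
    exact Algebra.TensorProduct.includeRight_injective (R := W.K) (A := ℂ) (B := W.H Y)
      (algebraMap W.K ℂ).injective e3
  refine ⟨c₀⁻¹ • S, Submodule.smul_mem _ _ hs, c₀ • s', Submodule.smul_mem _ _ hs', ?_, ?_, ?_,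
    ?_, ?_⟩
  · intro x
    rw [LinearMap.smul_apply, LinearMap.smul_apply, map_smul, smul_smul, mul_inv_cancel₀ hc₀,
      one_smul]
    exact h1 x
  · intro y
    rw [LinearMap.smul_apply, LinearMap.smul_apply, map_smul, smul_smul, inv_mul_cancel₀ hc₀,
      one_smul]
    exact h2 y
  · intro i x hx
    exact Submodule.smul_mem _ _ (hdeg i x hx)
  · rw [LinearMap.smul_apply, hS1, smul_smul, inv_mul_cancel₀ hc₀, one_smul]
  · intro x y
    rw [LinearMap.smul_apply, LinearMap.smul_apply, LinearMap.smul_apply, smul_mul_smul_comm,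
      ← hmul, smul_smul, mul_assoc, inv_mul_cancel₀ hc₀, mul_one]

/-- **The multiplicative Orlov conjecture for homological motives.** -/
theorem main [Algebra W.K ℂ] (hK : IsRationalField W.K) {hX : Hyperkahler W X} {hY : Hyperkahler W Y}
    (D : DerivedEquivalence hX hY) : ∃ z z', IsMotivicRingIso W X Y z z' := by
  obtain ⟨s, hs, s', hs', h1, h2, hdeg, hone, hmul⟩ := exists_mult D
  obtain ⟨z, hz, hzs⟩ := exists_cycle hK (Pool.Agent.N190.JM.kop_of_comm hs hdeg)
  obtain ⟨z', hz', hzs'⟩ := exists_cycle hK (Pool.Agent.N190.JM.kop_of_comm hs'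
    (fun i a ha => Pool.Agent.N190.JM.eq_gr_of_inj hdeg h2 h1 ha))
  refine ⟨z, z', hz, hz', ?_, ?_, ⟨?_, ?_⟩, ?_, ?_, ?_⟩
  · apply corr_bijective.1
    apply LinearMap.ext
    intro x
    change W.corr (W.cl _ (compCyc ops z z')) x = W.corr (W.cl _ (Ns.diagCyc ops X)) x
    rw [corr_compCyc W hz', Ns.corr_diagCyc, LinearMap.comp_apply, hzs, hzs', h1]
    rfl
  · apply corr_bijective.1
    apply LinearMap.ext
    intro x
    change W.corr (W.cl _ (compCyc ops z' z)) x = W.corr (W.cl _ (Ns.diagCyc ops Y)) x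
    rw [corr_compCyc W hz, Ns.corr_diagCyc, LinearMap.comp_apply, hzs, hzs', h2]
    rfl
  · intro x
    rw [cycleOperator, cycleOperator, hzs, hzs', h1]
  · intro x
    rw [cycleOperator, cycleOperator, hzs, hzs', h2]
  · intro i x hx
    rw [cycleOperator, hzs]
    exact hdeg i x hx
  · rw [cycleOperator, hzs, hone]
  · intro x y
    rw [cycleOperator, hzs, hmul]

end Pool.Agent.N180.MOS
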