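import Pool.Agent.N180.MO.Defs
import Pool.Agent.N190.JL.Exp

/-!
# Exponentials in orthogonal representations
-/

open Finset

namespace Pool.Agent.N180.MO

variable {F V H : Type*} [Field F] [AddCommGroup V] [Module F V] [AddCommGroup H] [Module F H]
  {b : V →ₗ[F] V →ₗ[F] F} {R : V →ₗ[F] V →ₗ[F] Module.End F H}

lemma wedge_apply (x y z : V) : wedge b x y z = b x z • y - b y z • x := rfl

lemma IsRep.skew (h : IsRep b R) (x y : V) : R x y = -R y x := by
  have h1 := h.alt (x + y)
  simp only [map_add, LinearMap.add_apply, h.alt x, h.alt y, zero_add, add_zero] at h1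
  exact eq_neg_of_add_eq_zero_right h1

section exp

lemma isExp_zero : IsExp (0 : Module.End F H) 1 := ⟨1, by simp, by simp⟩

lemma sum_eq_of_pow {a : Module.End F H} {m n : ℕ} (hmn : m ≤ n) (h : a ^ m = 0) :
    ∑ i ∈ range n, ((i.factorial : F))⁻¹ • a ^ i =
      ∑ i ∈ range m, ((i.factorial : F))⁻¹ • a ^ i := by
  symm
  apply Finset.sum_subset (by intro i; simp only [Finset.mem_range]; omega)
  intro i _ hi
  rw [Finset.mem_range, not_lt] at hi
  rw [pow_eq_zero_of_le hi h, smul_zero]

lemma IsExp.unique {a g g' : Module.End F H} (h : IsExp a g) (h' : IsExp a g') : g = g' := by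
  obtain ⟨m, hm, rfl⟩ := h
  obtain ⟨n, hn, rfl⟩ := h'
  rcases le_total m n with hmn | hmn
  · exact (sum_eq_of_pow hmn hm).symm
  · exact sum_eq_of_pow hmn hn

lemma IsExp.of_nilpotent {a : Module.End F H} (h : IsNilpotent a) : ∃ g, IsExp a g := by
  obtain ⟨m, hm⟩ := h
  exact ⟨_, m, hm, rfl⟩

lemma IsExp.nilpotent {a g : Module.End F H} (h : IsExp a g) : IsNilpotent a := by
  obtain ⟨m, hm, -⟩ := h
  exact ⟨m, hm⟩

/-- Exponentials and conjugation. -/
lemma IsExp.conj {H' : Type*} [AddCommGroup H'] [Module F H'] {u : H →ₗ[F] H'}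
    (hu : Function.Surjective u) {a g : Module.End F H} {a' : Module.End F H'}
    (h : IsExp a g) (haa : u ∘ₗ a = a' ∘ₗ u) : ∃ g', IsExp a' g' ∧ u ∘ₗ g = g' ∘ₗ u := by
  obtain ⟨m, hm, rfl⟩ := h
  have key : ∀ i : ℕ, ∀ x, u ((a ^ i) x) = (a' ^ i) (u x) := by
    intro i
    induction i with
    | zero => intro x; simp
    | succ i ih =>
      intro x
      rw [pow_succ, pow_succ, Module.End.mul_apply, Module.End.mul_apply, ih]
      congr 1
      exact LinearMap.congr_fun haa x
  refine ⟨∑ i ∈ range m, ((i.factorial : F))⁻¹ • a' ^ i, ⟨m, ?_, rfl⟩, ?_⟩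
  · apply LinearMap.ext
    intro y
    obtain ⟨x, rfl⟩ := hu y
    rw [← key, hm]
    simp
  · apply LinearMap.ext
    intro x
    simp only [LinearMap.comp_apply, LinearMap.sum_apply, map_sum, LinearMap.smul_apply, map_smul,
      key]

variable [CharZero F]

lemma IsExp.eq_exp [Module ℚ H] {a g : Module.End F H} (h : IsExp a g) :
    g = IsNilpotent.exp a := by
  obtain ⟨m, hm, rfl⟩ := h
  rw [IsNilpotent.exp_eq_sum hm]
  apply Finset.sum_congr rfl
  intro i _
  rw [N190.JL.rat_smul]
  push_cast
  rfl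

/-- Conjugation by an exponential. -/
lemma IsExp.mul_bk {E g a c d : Module.End F H} (h : IsExp E g) (hb : E * a = a * E + c)
    (hc : E * c = c * E + d) (h3 : E * d = d * E) :
    g * a = (a + c + (2⁻¹ : F) • d) * g := by
  let _ : Module ℚ H := Module.compHom H (algebraMap ℚ F)
  rw [h.eq_exp]
  exact N190.JL.exp_mul_bk h.nilpotent hb hc h3

/-- The inverse of an exponential. -/
lemma IsExp.inv {a g : Module.End F H} (h : IsExp a g) :
    ∃ g', IsExp (-a) g' ∧ g * g' = 1 ∧ g' * g = 1 := by
  let _ : Module ℚ H := Module.compHom H (algebraMap ℚ F)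
  obtain ⟨g', hg'⟩ := IsExp.of_nilpotent h.nilpotent.neg
  refine ⟨g', hg', ?_, ?_⟩
  · rw [h.eq_exp, hg'.eq_exp]
    exact IsNilpotent.exp_mul_exp_neg_self h.nilpotent
  · rw [h.eq_exp, hg'.eq_exp]
    exact IsNilpotent.exp_neg_mul_exp_self h.nilpotent

end exp

section eich

variable (b) in
/-- The exponential of `l ∧ x`. -/
def eich (l x : V) : Module.End F V :=
  1 + wedge b l x - ((2⁻¹ : F) * b x x) • (b l).smulRight l

lemma eich_apply (l x z : V) : eich b l x z =
    z + (b l z • x - b x z • l) - ((2⁻¹ : F) * b x x * b l z) • l := by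
  simp only [eich, LinearMap.sub_apply, LinearMap.add_apply, Module.End.one_apply, wedge_apply,
    LinearMap.smul_apply, LinearMap.smulRight_apply, smul_smul]

lemma wedge_sq (hs : ∀ x y, b x y = b y x) {l x : V} (hl : b l l = 0) (hx : b l x = 0) :
    wedge b l x ^ 2 = -(b x x • (b l).smulRight l) := by
  apply LinearMap.ext
  intro z
  have hx' : b x l = 0 := by rw [hs, hx]
  simp only [pow_two, Module.End.mul_apply, wedge_apply, map_sub, map_smul, hl, hx, hx',
    LinearMap.neg_apply, LinearMap.smul_apply, LinearMap.smulRight_apply]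
  module

lemma wedge_cube (hs : ∀ x y, b x y = b y x) {l x : V} (hl : b l l = 0) (hx : b l x = 0) :
    wedge b l x ^ 3 = 0 := by
  rw [pow_succ', wedge_sq hs hl hx]
  apply LinearMap.ext
  intro z
  have hx' : b x l = 0 := by rw [hs, hx]
  simp only [Module.End.mul_apply, LinearMap.neg_apply, LinearMap.smul_apply,
    LinearMap.smulRight_apply, wedge_apply, map_neg, map_smul, hl, hx', LinearMap.zero_apply,
    smul_zero, zero_smul, sub_zero, neg_zero]

lemma isExp_eich [CharZero F] (hs : ∀ x y, b x y = b y x) {l x : V} (hl : b l l = 0)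
    (hx : b l x = 0) : IsExp (wedge b l x) (eich b l x) := by
  refine ⟨3, wedge_cube hs hl hx, ?_⟩
  simp only [Finset.sum_range_succ, Finset.sum_range_zero, zero_add, pow_zero, pow_one,
    wedge_sq hs hl hx, eich, Nat.factorial]
  simp only [Nat.cast_one, inv_one, one_smul, mul_one, Nat.cast_ofNat, smul_neg, smul_smul,
    Nat.succ_eq_add_one, zero_add, Nat.reduceAdd]
  norm_num
  abel

lemma eich_isom (hs : ∀ x y, b x y = b y x) [CharZero F] {l x : V} (hl : b l l = 0)
    (hx : b l x = 0) (y z : V) : b (eich b l x y) (eich b l x z) = b y z := by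
  have hx' : b x l = 0 := by rw [hs, hx]
  rw [eich_apply, eich_apply]
  simp only [map_sub, map_add, map_smul, LinearMap.sub_apply, LinearMap.add_apply,
    LinearMap.smul_apply, smul_eq_mul, hl, hx, hx']
  rw [hs y l, hs y x]
  ring

/-- **Conjugation by the exponential of `l ∧ x`.** -/
lemma exp_conj [CharZero F] (h : IsRep b R) (hs : ∀ x y, b x y = b y x) {l x : V}
    (hl : b l l = 0) (hx : b l x = 0) {g : Module.End F H} (hg : IsExp (R l x) g) (y z : V) :
    g * R y z = R (eich b l x y) (eich b l x z) * g := by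
  set E := wedge b l x with hE
  have e1 : ∀ y z, R l x * R y z = R y z * R l x + (R (E y) z + R y (E z)) := by
    intro y z
    rw [← h.lie l x y z]; abel
  have hx' : b x l = 0 := by rw [hs, hx]
  have E2 : ∀ y, E (E y) = -(b x x * b l y) • l := by
    intro y
    have := LinearMap.congr_fun (wedge_sq hs hl hx) y
    rw [pow_two, Module.End.mul_apply] at this
    rw [hE, this]
    simp only [LinearMap.neg_apply, LinearMap.smul_apply, LinearMap.smulRight_apply]
    module
  have El : E l = 0 := by
    rw [hE, wedge_apply, hl, hx', zero_smul, zero_smul, sub_zero]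
  have Rl : ∀ y z, R (E (E y)) (E z) + R (E y) (E (E z)) = 0 := by
    intro y z
    rw [E2, E2]
    simp only [hE, wedge_apply, map_sub, map_smul, LinearMap.smul_apply, LinearMap.sub_apply,
      map_neg, LinearMap.neg_apply, h.alt l, smul_zero, sub_zero, neg_smul]
    rw [h.skew x l]
    module
  have Rll : ∀ y z, R (E (E y)) (E (E z)) = 0 := by
    intro y z
    rw [E2, E2]
    simp only [map_neg, map_smul, neg_smul, LinearMap.neg_apply, LinearMap.smul_apply, h.alt l,
      smul_zero, neg_zero]
  have key := hg.mul_bk (a := R y z) (c := R (E y) z + R y (E z))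
    (d := R (E (E y)) z + (2 : F) • R (E y) (E z) + R y (E (E z))) (e1 y z) (by
      rw [mul_add, e1, e1, add_mul, two_smul]
      abel) (by
      rw [mul_add, mul_add, mul_smul_comm, e1, e1, e1, add_mul, add_mul, smul_mul_assoc,
        E2 y, E2 z, map_smul E, map_smul E, El, smul_zero, smul_zero, ← E2 y, ← E2 z]
      have h1 := Rl y z
      rw [map_zero, map_zero, LinearMap.zero_apply, zero_add, add_zero, h1, add_zero]
      have : R (E (E y)) (E z) = - R (E y) (E (E z)) := eq_neg_of_add_eq_zero_left h1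
      rw [this]
      abel)
  rw [key]
  congr 1
  have e3 : ∀ y, eich b l x y = y + E y + (2⁻¹ : F) • E (E y) := by
    intro y
    rw [E2, eich_apply, hE, wedge_apply]
    module
  rw [e3, e3]
  simp only [map_add, LinearMap.add_apply, map_smul, LinearMap.smul_apply, Rll, smul_zero,
    add_zero]
  have h1 := Rl y z
  have h2 : R (E (E y)) (E z) = - R (E y) (E (E z)) := eq_neg_of_add_eq_zero_left h1
  rw [h2]
  have h4 : (2⁻¹ : F) • (R (E (E y)) z + (2 : F) • R (E y) (E z) + R y (E (E z))) =
    (2⁻¹ : F) • R (E (E y)) z + R (E y) (E z) + (2⁻¹ : F) • R y (E (E z)) := by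
    rw [smul_add, smul_add, smul_smul, inv_mul_cancel₀ (two_ne_zero : (2 : F) ≠ 0), one_smul]
  rw [h4]
  module

end eich

end Pool.Agent.N180.MO
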