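import Pool.Agent.N180.MO.Quad

/-!
# The group generated by the exponentials, and its algebraic part
-/

open Finset

namespace Pool.Agent.N180.MO

variable {F V H : Type*} [Field F] [CharZero F] [AddCommGroup V] [Module F V] [AddCommGroup H]
  [Module F H] {b : V →ₗ[F] V →ₗ[F] F} {R : V →ₗ[F] V →ₗ[F] Module.End F H}

lemma mem_spin_gen (hs : ∀ x y, b x y = b y x) {l x : V} (hl : b l l = 0) (hx : b l x = 0)
    {g : Module.End F H} (hg : IsExp (R l x) g) : (g, eich b l x) ∈ spin b R :=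
  Submonoid.subset_closure ⟨l, x, hl, hx, hg, isExp_eich hs hl hx⟩

lemma spin_act (h : IsRep b R) (hs : ∀ x y, b x y = b y x) {p : Module.End F H × Module.End F V}
    (hp : p ∈ spin b R) (y z : V) : p.1 * R y z = R (p.2 y) (p.2 z) * p.1 := by
  induction hp using Submonoid.closure_induction generalizing y z with
  | mem p hp =>
    obtain ⟨l, x, hl, hx, h1, h2⟩ := hp
    rw [h2.unique (isExp_eich hs hl hx)]
    exact exp_conj h hs hl hx h1 y z
  | one => simp
  | mul p q _ _ hp hq =>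
    rw [Prod.fst_mul, Prod.snd_mul, mul_assoc, hq, ← mul_assoc, hp, mul_assoc,
      Module.End.mul_apply, Module.End.mul_apply]

lemma spin_isom (hs : ∀ x y, b x y = b y x) {p : Module.End F H × Module.End F V}
    (hp : p ∈ spin b R) (y z : V) : b (p.2 y) (p.2 z) = b y z := by
  induction hp using Submonoid.closure_induction generalizing y z with
  | mem p hp =>
    obtain ⟨l, x, hl, hx, h1, h2⟩ := hp
    rw [h2.unique (isExp_eich hs hl hx)]
    exact eich_isom hs hl hx y z
  | one => simp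
  | mul p q _ _ hp hq =>
    rw [Prod.snd_mul, Module.End.mul_apply, Module.End.mul_apply, hp, hq]

lemma gen_inv (hs : ∀ x y, b x y = b y x) {l x : V} (hl : b l l = 0) (hx : b l x = 0)
    {g : Module.End F H} (hg : IsExp (R l x) g) :
    ∃ g', IsExp (R l (-x)) g' ∧ (g, eich b l x) * (g', eich b l (-x)) = 1 ∧
      (g', eich b l (-x)) * (g, eich b l x) = 1 := by
  obtain ⟨g', h1, h2, h3⟩ := hg.inv
  obtain ⟨e', h4, h5, h6⟩ := (isExp_eich hs hl hx).inv
  have h7 : e' = eich b l (-x) := by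
    apply h4.unique
    have := isExp_eich hs hl (show b l (-x) = 0 by rw [map_neg, hx, neg_zero])
    have e : wedge b l (-x) = -wedge b l x := by
      apply LinearMap.ext
      intro z
      rw [LinearMap.neg_apply, wedge_apply, wedge_apply]
      simp only [smul_neg, map_neg, LinearMap.neg_apply, neg_smul]
      abel
    rwa [e] at this
  refine ⟨g', by rwa [map_neg], ?_, ?_⟩
  · rw [Prod.mk_mul_mk, h2, ← h7, h5]; rfl
  · rw [Prod.mk_mul_mk, h3, ← h7, h6]; rfl

lemma spin_inv (hs : ∀ x y, b x y = b y x) {p : Module.End F H × Module.End F V}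
    (hp : p ∈ spin b R) : ∃ p' ∈ spin b R, p * p' = 1 ∧ p' * p = 1 := by
  induction hp using Submonoid.closure_induction with
  | mem p hp =>
    obtain ⟨l, x, hl, hx, h1, h2⟩ := hp
    obtain ⟨g', h3, h4, h5⟩ := gen_inv hs hl hx h1
    have h6 : p = (p.1, eich b l x) := by
      rw [← h2.unique (isExp_eich hs hl hx)]
    rw [h6]
    exact ⟨(g', eich b l (-x)), mem_spin_gen hs hl (by rw [map_neg, hx, neg_zero]) h3, h4, h5⟩
  | one => exact ⟨1, one_mem _, one_mul _, one_mul _⟩
  | mul p q _ _ hp hq =>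
    obtain ⟨p', hp', h1, h2⟩ := hp
    obtain ⟨q', hq', h3, h4⟩ := hq
    refine ⟨q' * p', mul_mem hq' hp', ?_, ?_⟩
    · rw [mul_assoc, ← mul_assoc q, h3, one_mul, h1]
    · rw [mul_assoc, ← mul_assoc p', h2, one_mul, h4]

/-- The subgroup generated by the exponentials of those `R l x` which are in the subalgebra `A`,
with `l` and `x` in `N`. -/
def GA (b : V →ₗ[F] V →ₗ[F] F) (R : V →ₗ[F] V →ₗ[F] Module.End F H)
    (A : Subalgebra F (Module.End F H)) (N : Submodule F V) :
    Submonoid (Module.End F H × Module.End F V) :=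
  Submonoid.closure {p | ∃ l ∈ N, ∃ x ∈ N, b l l = 0 ∧ b l x = 0 ∧ R l x ∈ A ∧
    IsExp (R l x) p.1 ∧ p.2 = eich b l x}

variable {A : Subalgebra F (Module.End F H)} {N : Submodule F V}

lemma mem_GA_gen {l x : V} (hlN : l ∈ N) (hxN : x ∈ N) (hl : b l l = 0) (hx : b l x = 0)
    (hA : R l x ∈ A) {g : Module.End F H} (hg : IsExp (R l x) g) :
    (g, eich b l x) ∈ GA b R A N :=
  Submonoid.subset_closure ⟨l, hlN, x, hxN, hl, hx, hA, hg, rfl⟩

lemma GA_spin (hs : ∀ x y, b x y = b y x) {p : Module.End F H × Module.End F V}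
    (hp : p ∈ GA b R A N) : p ∈ spin b R := by
  refine (Submonoid.closure_le (S := spin b R)).2 ?_ hp
  rintro p ⟨l, -, x, -, hl, hx, -, h1, h2⟩
  have := mem_spin_gen hs hl hx h1
  rw [← h2] at this
  exact this

lemma IsExp.mem {a g : Module.End F H} (h : IsExp a g) (ha : a ∈ A) : g ∈ A := by
  obtain ⟨m, -, rfl⟩ := h
  exact Subalgebra.sum_mem _ fun i _ => Subalgebra.smul_mem _ (Subalgebra.pow_mem _ ha i) _

lemma GA_mem {p : Module.End F H × Module.End F V} (hp : p ∈ GA b R A N) : p.1 ∈ A := by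
  induction hp using Submonoid.closure_induction with
  | mem p hp =>
    obtain ⟨l, -, x, -, hl, hx, hA, h1, h2⟩ := hp
    exact h1.mem hA
  | one => exact one_mem _
  | mul p q _ _ hp hq => exact mul_mem hp hq

lemma eich_mem {l x z : V} (hl : l ∈ N) (hx : x ∈ N) (hz : z ∈ N) : eich b l x z ∈ N := by
  rw [eich_apply]
  exact Submodule.sub_mem _ (Submodule.add_mem _ hz (Submodule.sub_mem _
    (Submodule.smul_mem _ _ hx) (Submodule.smul_mem _ _ hl))) (Submodule.smul_mem _ _ hl)

lemma GA_N {p : Module.End F H × Module.End F V} (hp : p ∈ GA b R A N) :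
    ∀ x ∈ N, p.2 x ∈ N := by
  induction hp using Submonoid.closure_induction with
  | mem p hp =>
    obtain ⟨l, hlN, x, hxN, hl, hx, hA, h1, h2⟩ := hp
    intro z hz
    rw [h2]
    exact eich_mem hlN hxN hz
  | one => exact fun x hx => hx
  | mul p q _ _ hp hq => exact fun x hx => hp _ (hq _ hx)

lemma GA_inv (hs : ∀ x y, b x y = b y x) {p : Module.End F H × Module.End F V}
    (hp : p ∈ GA b R A N) : ∃ p' ∈ GA b R A N, p * p' = 1 ∧ p' * p = 1 := by
  induction hp using Submonoid.closure_induction with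
  | mem p hp =>
    obtain ⟨l, hlN, x, hxN, hl, hx, hA, h1, h2⟩ := hp
    obtain ⟨g', h3, h4, h5⟩ := gen_inv hs hl hx h1
    have h6 : p = (p.1, eich b l x) := by rw [← h2]
    rw [h6]
    exact ⟨(g', eich b l (-x)), mem_GA_gen hlN (Submodule.neg_mem _ hxN) hl
      (by rw [map_neg, hx, neg_zero]) (by rw [map_neg]; exact Subalgebra.neg_mem _ hA) h3, h4, h5⟩
  | one => exact ⟨1, one_mem _, one_mul _, one_mul _⟩
  | mul p q _ _ hp hq =>
    obtain ⟨p', hp', h1, h2⟩ := hp
    obtain ⟨q', hq', h3, h4⟩ := hq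
    refine ⟨q' * p', mul_mem hq' hp', ?_, ?_⟩
    · rw [mul_assoc, ← mul_assoc q, h3, one_mul, h1]
    · rw [mul_assoc, ← mul_assoc p', h2, one_mul, h4]

/-- The operators `R v x` with `x` in `N` orthogonal to `v` are nilpotent elements of `A`. -/
def Good (b : V →ₗ[F] V →ₗ[F] F) (R : V →ₗ[F] V →ₗ[F] Module.End F H)
    (A : Subalgebra F (Module.End F H)) (N : Submodule F V) (v : V) : Prop :=
  ∀ x ∈ N, b v x = 0 → R v x ∈ A ∧ IsNilpotent (R v x)

lemma conj_nilpotent {a g g' : Module.End F H} (h : IsNilpotent a) (h1 : g' * g = 1) :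
    IsNilpotent (g * a * g') := by
  obtain ⟨m, hm⟩ := h
  have key : ∀ i, (g * a * g') ^ i * g = g * a ^ i := by
    intro i
    induction i with
    | zero => simp
    | succ i ih =>
      rw [pow_succ, mul_assoc, mul_assoc (g * a), h1, mul_one, ← mul_assoc, ih, mul_assoc,
        ← pow_succ]
  refine ⟨m + 1, ?_⟩
  rw [pow_succ', mul_assoc, mul_assoc, ← mul_assoc g]
  have h2 : g' * (g * a * g') ^ m = g' * (g * a * g') ^ m := rfl
  have h3 : (g * a * g') ^ (m + 1) = (g * a * g') ^ m * g * (a * g') := by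
    rw [pow_succ]; simp only [mul_assoc]
  have h4 := h3
  rw [key m, hm, mul_zero, zero_mul] at h4
  rw [pow_succ'] at h4
  simp only [mul_assoc] at h4 ⊢
  exact h4

lemma Good.move (h : IsRep b R) (hs : ∀ x y, b x y = b y x) {v : V} (hv : Good b R A N v)
    {p : Module.End F H × Module.End F V} (hp : p ∈ GA b R A N) : Good b R A N (p.2 v) := by
  intro x hx hvx
  obtain ⟨p', hp', h1, h2⟩ := GA_inv hs hp
  have e1 : p.1 * p'.1 = 1 := congrArg Prod.fst h1
  have e2 : p'.1 * p.1 = 1 := congrArg Prod.fst h2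
  have e3 : p.2 * p'.2 = 1 := congrArg Prod.snd h1
  have e4 : p.2 (p'.2 x) = x := by rw [← Module.End.mul_apply, e3]; rfl
  have h3 := hv (p'.2 x) (GA_N hp' x hx) (by
    rw [← spin_isom hs (GA_spin hs hp), e4, hvx])
  have h4 : R (p.2 v) x = p.1 * R v (p'.2 x) * p'.1 := by
    rw [spin_act h hs (GA_spin hs hp), e4, mul_assoc, e1, mul_one]
  rw [h4]
  exact ⟨mul_mem (mul_mem (GA_mem hp) h3.1) (GA_mem hp'), conj_nilpotent h3.2 e2⟩


end Pool.Agent.N180.MO
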